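import Mathlib

set_option autoImplicit false

/-!
# Character sums over functions with values in the field with two elements
-/

namespace Pool.Agent.C1L

open Finset

/-- The field with two elements. -/
abbrev F := ZMod 2

/-- The sign character. -/
def chi (a : F) : ℤ := if a = 0 then 1 else -1

@[simp] lemma chi_zero : chi 0 = 1 := rfl

lemma chi_add (a b : F) : chi (a + b) = chi a * chi b := by
  revert a b; decide

lemma chi_add_one (a : F) : chi (a + 1) = - chi a := by
  revert a; decide

lemma chi_le_one (a : F) : chi a ≤ 1 := by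
  revert a; decide

lemma abs_chi (a : F) : |chi a| = 1 := by
  revert a; decide

lemma eq_zero_or_one (a : F) : a = 0 ∨ a = 1 := by
  revert a; decide

lemma eq_one_of_ne_zero {a : F} (h : a ≠ 0) : a = 1 := (eq_zero_or_one a).resolve_left h

lemma add_self (a : F) : a + a = 0 := by
  revert a; decide

lemma add_eq_zero' {a b : F} : a + b = 0 ↔ a = b := by
  revert a b; decide

/-- A sum of signs vanishes if some permutation changes all signs. -/
lemma sum_chi_eq_zero {Om : Type*} [Fintype Om] (g : Om → F) (s : Equiv.Perm Om)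
    (h : ∀ om, g (s om) = g om + 1) : ∑ om, chi (g om) = 0 := by
  have h1 : ∑ om, chi (g (s om)) = ∑ om, chi (g om) := Equiv.sum_comp s fun om => chi (g om)
  have h2 : ∑ om, chi (g (s om)) = - ∑ om, chi (g om) := by
    rw [← Finset.sum_neg_distrib]
    exact Finset.sum_congr rfl fun om _ => by rw [h, chi_add_one]
  linarith

/-- Orthogonality of the characters of the space of functions. -/
lemma sum_chi_dot {ι : Type*} [Fintype ι] [DecidableEq ι] (v : ι → F) :
    ∑ c : ι → F, chi (∑ i, c i * v i) = if v = 0 then 2 ^ Fintype.card ι else 0 := by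
  split_ifs with hv
  · subst hv
    simp [ZMod.card]
  · obtain ⟨i, hi⟩ : ∃ i, v i ≠ 0 := by
      by_contra hcon
      push Not at hcon
      exact hv (funext hcon)
    refine sum_chi_eq_zero _ (Equiv.addRight (Pi.single i 1)) fun c => ?_
    simp only [Equiv.coe_addRight, Pi.add_apply, add_mul, Finset.sum_add_distrib]
    congr 1
    rw [Finset.sum_eq_single i]
    · rw [Pi.single_eq_same, one_mul, eq_one_of_ne_zero hi]
    · intro j _ hj
      rw [Pi.single_eq_of_ne hj, zero_mul]
    · intro h; exact absurd (Finset.mem_univ i) h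

/-- The number of zeros of a function as a double character sum. -/
lemma card_zero {Om ι : Type*} [Fintype Om] [Fintype ι] [DecidableEq ι] (f : Om → ι → F) :
    (2 : ℤ) ^ Fintype.card ι * ((univ.filter fun om => f om = 0).card : ℤ) =
      ∑ c : ι → F, ∑ om, chi (∑ i, c i * f om i) := by
  rw [Finset.sum_comm]
  simp_rw [sum_chi_dot]
  rw [← Finset.sum_filter, Finset.sum_const, nsmul_eq_mul, mul_comm]

/-- If all nontrivial characters have mean zero, every value has the expected frequency. -/
lemma card_zero_eq {Om ι : Type*} [Fintype Om] [Fintype ι] [DecidableEq ι] (f : Om → ι → F)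
    (h : ∀ c : ι → F, c ≠ 0 → ∑ om, chi (∑ i, c i * f om i) = 0) :
    (2 : ℤ) ^ Fintype.card ι * ((univ.filter fun om => f om = 0).card : ℤ) = Fintype.card Om := by
  rw [card_zero, Finset.sum_eq_single 0]
  · simp
  · intro c _ hc; exact h c hc
  · intro h; exact absurd (Finset.mem_univ _) h

/-- If few characters have nonzero mean, the zeros are not too frequent. -/
lemma card_zero_le {Om ι κ : Type*} [Fintype Om] [Fintype ι] [DecidableEq ι] [Fintype κ]
    (f : Om → ι → F) (D : (ι → F) → κ)
    (h : ∀ c c' : ι → F, ∑ om, chi (∑ i, c i * f om i) ≠ 0 →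
      ∑ om, chi (∑ i, c' i * f om i) ≠ 0 → D c = D c' → c = c') :
    (2 : ℤ) ^ Fintype.card ι * ((univ.filter fun om => f om = 0).card : ℤ) ≤
      Fintype.card κ * Fintype.card Om := by
  classical
  rw [card_zero]
  set S : Finset (ι → F) := univ.filter fun c => ∑ om, chi (∑ i, c i * f om i) ≠ 0 with hS
  have h1 : ∑ c : ι → F, ∑ om, chi (∑ i, c i * f om i) =
      ∑ c ∈ S, ∑ om, chi (∑ i, c i * f om i) := by
    rw [hS, Finset.sum_filter_ne_zero]
  have h2 : S.card ≤ Fintype.card κ := by
    refine Finset.card_le_card_of_injOn D (fun _ _ => Finset.mem_coe.2 (Finset.mem_univ _)) ?_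
    intro c hc c' hc' hD
    simp only [hS, Finset.coe_filter, Finset.mem_univ, true_and, Set.mem_ofPred_eq] at hc hc'
    exact h c c' hc hc' hD
  rw [h1]
  calc ∑ c ∈ S, ∑ om, chi (∑ i, c i * f om i) ≤ ∑ c ∈ S, (Fintype.card Om : ℤ) := by
        refine Finset.sum_le_sum fun c _ => ?_
        calc ∑ om, chi (∑ i, c i * f om i) ≤ ∑ _om : Om, (1 : ℤ) :=
              Finset.sum_le_sum fun om _ => chi_le_one _
          _ = _ := by simp
    _ = S.card * (Fintype.card Om : ℤ) := by rw [Finset.sum_const, nsmul_eq_mul]
    _ ≤ _ := by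
        refine mul_le_mul_of_nonneg_right ?_ (Int.natCast_nonneg _)
        exact_mod_cast h2

end Pool.Agent.C1L
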