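import Mathlib
import Pool.Agent.C1L.LA1

set_option autoImplicit false

/-!
# The random matrix `Z` and its pairing with a fixed matrix
-/

namespace Pool.Agent.C1L

open Finset

/-- Rows and columns of `Z`: the extra one, the large primes, the small primes. -/
abbrev R (n : ℕ) (I : Type) := Unit ⊕ (Fin n ⊕ I)

/-- The random bits `s, w, eps, lam, Lam` (only `w j l` with `j ≤ l` is used). -/
abbrev Om (n : ℕ) (I : Type) :=
  (Fin n → I → F) × (Fin n → Fin n → F) × (Fin n → F) × (Fin n → F) × F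

variable {n : ℕ} {I : Type}

/-- The block of the large primes. -/
def Wm (w : Fin n → Fin n → F) (ep : Fin n → F) (j l : Fin n) : F :=
  if j ≤ l then w j l else w l j + ep j * ep l

/-- The matrix `Z`. -/
def Z (M : Matrix I I F) (e l : I → F) (om : Om n I) : Matrix (R n I) (R n I) F
  | Sum.inl _, Sum.inl _ => om.2.2.2.2
  | Sum.inl _, Sum.inr (Sum.inl j) => om.2.2.1 j
  | Sum.inl _, Sum.inr (Sum.inr i) => e i
  | Sum.inr (Sum.inl j), Sum.inl _ => om.2.2.2.1 j
  | Sum.inr (Sum.inl j), Sum.inr (Sum.inl k) => Wm om.2.1 om.2.2.1 j k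
  | Sum.inr (Sum.inl j), Sum.inr (Sum.inr i) => om.1 j i
  | Sum.inr (Sum.inr i), Sum.inl _ => l i
  | Sum.inr (Sum.inr i), Sum.inr (Sum.inl j) => om.1 j i + om.2.2.1 j * e i
  | Sum.inr (Sum.inr i), Sum.inr (Sum.inr i') => M i i'

variable [Fintype I] [DecidableEq I]

/-- The pairing of two matrices. -/
def pr (A T : Matrix (R n I) (R n I) F) : F := ∑ a, ∑ b, A a b * T a b

lemma pr_add (A B T : Matrix (R n I) (R n I) F) : pr (A + B) T = pr A T + pr B T := by
  simp only [pr, Matrix.add_apply, add_mul, Finset.sum_add_distrib]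

lemma pr_expand (A T : Matrix (R n I) (R n I) F) :
    pr A T = A (Sum.inl ()) (Sum.inl ()) * T (Sum.inl ()) (Sum.inl ())
      + ∑ j, A (Sum.inl ()) (Sum.inr (Sum.inl j)) * T (Sum.inl ()) (Sum.inr (Sum.inl j))
      + ∑ i, A (Sum.inl ()) (Sum.inr (Sum.inr i)) * T (Sum.inl ()) (Sum.inr (Sum.inr i))
      + ∑ j, A (Sum.inr (Sum.inl j)) (Sum.inl ()) * T (Sum.inr (Sum.inl j)) (Sum.inl ())
      + ∑ j, ∑ k, A (Sum.inr (Sum.inl j)) (Sum.inr (Sum.inl k)) *
          T (Sum.inr (Sum.inl j)) (Sum.inr (Sum.inl k))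
      + ∑ j, ∑ i, A (Sum.inr (Sum.inl j)) (Sum.inr (Sum.inr i)) *
          T (Sum.inr (Sum.inl j)) (Sum.inr (Sum.inr i))
      + ∑ i, A (Sum.inr (Sum.inr i)) (Sum.inl ()) * T (Sum.inr (Sum.inr i)) (Sum.inl ())
      + ∑ j, ∑ i, A (Sum.inr (Sum.inr i)) (Sum.inr (Sum.inl j)) *
          T (Sum.inr (Sum.inr i)) (Sum.inr (Sum.inl j))
      + ∑ i, ∑ i', A (Sum.inr (Sum.inr i)) (Sum.inr (Sum.inr i')) *
          T (Sum.inr (Sum.inr i)) (Sum.inr (Sum.inr i')) := by
  simp only [pr, Fintype.sum_sum_type, Finset.univ_unique, Finset.sum_singleton,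
    Finset.sum_add_distrib, PUnit.default_eq_unit]
  rw [Finset.sum_comm (f := fun i j => A (Sum.inr (Sum.inr i)) (Sum.inr (Sum.inl j)) *
          T (Sum.inr (Sum.inr i)) (Sum.inr (Sum.inl j)))]
  ring

variable (M : Matrix I I F) (e l : I → F) (T : Matrix (R n I) (R n I) F)

/-- Change of the pairing when the bits change. -/
lemma pr_shift (om d : Om n I) (hep : d.2.2.1 = 0) :
    pr (Z M e l (om + d)) T = pr (Z M e l om) T
      + (d.2.2.2.2 * T (Sum.inl ()) (Sum.inl ())
      + ∑ j, d.2.2.2.1 j * T (Sum.inr (Sum.inl j)) (Sum.inl ())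
      + ∑ j, ∑ k, (if j ≤ k then d.2.1 j k else d.2.1 k j) *
          T (Sum.inr (Sum.inl j)) (Sum.inr (Sum.inl k))
      + ∑ j, ∑ i, d.1 j i * (T (Sum.inr (Sum.inl j)) (Sum.inr (Sum.inr i)) +
          T (Sum.inr (Sum.inr i)) (Sum.inr (Sum.inl j)))) := by
  rw [pr_expand, pr_expand]
  simp only [Z, Prod.snd_add, Prod.fst_add, Pi.add_apply, hep, add_zero, Pi.zero_apply]
  have h1 : ∀ j k : Fin n, Wm (om.2.1 + d.2.1) om.2.2.1 j k =
      Wm om.2.1 om.2.2.1 j k + (if j ≤ k then d.2.1 j k else d.2.1 k j) := by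
    intro j k
    unfold Wm
    split_ifs <;> simp only [Pi.add_apply] <;> ring
  simp only [h1, add_mul, mul_add, Finset.sum_add_distrib]
  ring

/-- Mean zero: bits of `s`. -/
lemma vanish_s (j : Fin n) (i : I)
    (h : T (Sum.inr (Sum.inl j)) (Sum.inr (Sum.inr i)) +
      T (Sum.inr (Sum.inr i)) (Sum.inr (Sum.inl j)) ≠ 0) :
    ∑ om : Om n I, chi (pr (Z M e l om) T) = 0 := by
  set d : Om n I := (Pi.single j (Pi.single i 1), 0, 0, 0, 0) with hd
  refine sum_chi_eq_zero _ (Equiv.addRight d) fun om => ?_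
  rw [Equiv.coe_addRight, pr_shift M e l T om d rfl]
  congr 1
  simp only [hd, zero_mul, Pi.zero_apply, ite_self, Finset.sum_const_zero, zero_add, add_zero]
  rw [Finset.sum_eq_single j, Finset.sum_eq_single i]
  · simp only [Pi.single_eq_same, one_mul]
    exact eq_one_of_ne_zero h
  · intro i' _ hi'
    rw [Pi.single_eq_same, Pi.single_eq_of_ne hi', zero_mul]
  · intro h; exact absurd (Finset.mem_univ _) h
  · intro j' _ hj'
    rw [Pi.single_eq_of_ne hj']
    simp
  · intro h; exact absurd (Finset.mem_univ _) h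

/-- Mean zero: bits of `lam`. -/
lemma vanish_lam (j : Fin n) (h : T (Sum.inr (Sum.inl j)) (Sum.inl ()) ≠ 0) :
    ∑ om : Om n I, chi (pr (Z M e l om) T) = 0 := by
  set d : Om n I := (0, 0, 0, Pi.single j 1, 0) with hd
  refine sum_chi_eq_zero _ (Equiv.addRight d) fun om => ?_
  rw [Equiv.coe_addRight, pr_shift M e l T om d rfl]
  congr 1
  simp only [hd, zero_mul, Pi.zero_apply, ite_self, Finset.sum_const_zero, zero_add, add_zero]
  rw [Finset.sum_eq_single j]
  · simp only [Pi.single_eq_same, one_mul]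
    exact eq_one_of_ne_zero h
  · intro j' _ hj'
    rw [Pi.single_eq_of_ne hj', zero_mul]
  · intro h; exact absurd (Finset.mem_univ _) h

/-- Mean zero: diagonal bits of `w`. -/
lemma vanish_d (j : Fin n) (h : T (Sum.inr (Sum.inl j)) (Sum.inr (Sum.inl j)) ≠ 0) :
    ∑ om : Om n I, chi (pr (Z M e l om) T) = 0 := by
  set d : Om n I := (0, Pi.single j (Pi.single j 1), 0, 0, 0) with hd
  refine sum_chi_eq_zero _ (Equiv.addRight d) fun om => ?_
  rw [Equiv.coe_addRight, pr_shift M e l T om d rfl]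
  congr 1
  simp only [hd, zero_mul, Pi.zero_apply, Finset.sum_const_zero, zero_add, add_zero]
  rw [Finset.sum_eq_single j, Finset.sum_eq_single j]
  · simp only [Pi.single_eq_same, one_mul, le_refl, if_true]
    exact eq_one_of_ne_zero h
  · intro k _ hk
    rw [Pi.single_eq_same, Pi.single_eq_of_ne hk, Pi.single_eq_of_ne hk]
    simp
  · intro h; exact absurd (Finset.mem_univ _) h
  · intro j' _ hj'
    refine Finset.sum_eq_zero fun k _ => ?_
    rw [Pi.single_eq_of_ne hj']
    by_cases hk : k = j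
    · subst hk
      rw [Pi.single_eq_same, Pi.single_eq_of_ne hj']
      simp
    · rw [Pi.single_eq_of_ne hk]; simp
  · intro h; exact absurd (Finset.mem_univ _) h

/-- Mean zero: off-diagonal bits of `w`. -/
lemma vanish_w (j k : Fin n) (hjk : j ≠ k)
    (h : T (Sum.inr (Sum.inl j)) (Sum.inr (Sum.inl k)) +
      T (Sum.inr (Sum.inl k)) (Sum.inr (Sum.inl j)) ≠ 0) :
    ∑ om : Om n I, chi (pr (Z M e l om) T) = 0 := by
  wlog hlt : j < k generalizing j k
  · exact this k j hjk.symm (by rwa [add_comm]) (lt_of_le_of_ne (not_lt.1 hlt) hjk.symm)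
  set d : Om n I := (0, Pi.single j (Pi.single k 1), 0, 0, 0) with hd
  refine sum_chi_eq_zero _ (Equiv.addRight d) fun om => ?_
  rw [Equiv.coe_addRight, pr_shift M e l T om d rfl]
  congr 1
  simp only [hd, zero_mul, Pi.zero_apply, Finset.sum_const_zero, zero_add, add_zero]
  have hsum : ∀ a b : Fin n, (if a ≤ b then (Pi.single j (Pi.single k 1) : Fin n → Fin n → F) a b
      else (Pi.single j (Pi.single k 1) : Fin n → Fin n → F) b a) *
      T (Sum.inr (Sum.inl a)) (Sum.inr (Sum.inl b)) =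
      (if a = j ∧ b = k then T (Sum.inr (Sum.inl j)) (Sum.inr (Sum.inl k)) else 0) +
      (if a = k ∧ b = j then T (Sum.inr (Sum.inl k)) (Sum.inr (Sum.inl j)) else 0) := by
    intro a b
    have hs : ∀ x y : Fin n, (Pi.single j (Pi.single k 1) : Fin n → Fin n → F) x y =
        if x = j ∧ y = k then 1 else 0 := by
      intro x y
      by_cases hx : x = j
      · subst hx
        by_cases hy : y = k
        · subst hy; simp
        · rw [Pi.single_eq_same, Pi.single_eq_of_ne hy]; simp [hy]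
      · rw [Pi.single_eq_of_ne hx]; simp [hx]
    rw [hs, hs]
    by_cases h1 : a = j ∧ b = k
    · obtain ⟨rfl, rfl⟩ := h1
      simp [hlt.le, hjk]
    · by_cases h2 : a = k ∧ b = j
      · obtain ⟨rfl, rfl⟩ := h2
        simp [not_le.2 hlt, hjk.symm]
      · have h3 : ¬ (b = j ∧ a = k) := fun h => h2 ⟨h.2, h.1⟩
        simp [h1, h2, h3]
  simp only [hsum, Finset.sum_add_distrib]
  rw [Finset.sum_eq_single j, Finset.sum_eq_single k, Finset.sum_eq_single k,
    Finset.sum_eq_single j]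
  · simp only [and_self, if_true]
    exact eq_one_of_ne_zero h
  · intro b _ hb; simp [hb]
  · intro h; exact absurd (Finset.mem_univ _) h
  · intro a _ ha; exact Finset.sum_eq_zero fun b _ => by simp [ha]
  · intro h; exact absurd (Finset.mem_univ _) h
  · intro b _ hb; simp [hb]
  · intro h; exact absurd (Finset.mem_univ _) h
  · intro a _ ha; exact Finset.sum_eq_zero fun b _ => by simp [ha]
  · intro h; exact absurd (Finset.mem_univ _) h

end Pool.Agent.C1L
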