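import Mathlib
import Pool.Agent.C1L.LA2

set_option autoImplicit false
set_option linter.unusedSectionVars false

/-!
# Shifts of the bits `eps`, tuples of vectors, surviving characters
-/

namespace Pool.Agent.C1L

open Finset

variable {n : ℕ} {I : Type} [Fintype I] [DecidableEq I]
variable (M : Matrix I I F) (e l : I → F) (T : Matrix (R n I) (R n I) F)

/-- Change of the pairing when `eps` changes. -/
lemma pr_shift_ep (om : Om n I) (d : Fin n → F)
    (hsym : ∀ j k : Fin n, T (Sum.inr (Sum.inl j)) (Sum.inr (Sum.inl k)) =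
      T (Sum.inr (Sum.inl k)) (Sum.inr (Sum.inl j)))
    (hdiag : ∀ j : Fin n, T (Sum.inr (Sum.inl j)) (Sum.inr (Sum.inl j)) = 0)
    (hker : ∀ j : Fin n, ∑ k, T (Sum.inr (Sum.inl j)) (Sum.inr (Sum.inl k)) * d k = 0) :
    pr (Z M e l (om + (0, 0, d, 0, 0))) T = pr (Z M e l om) T
      + (∑ j, d j * T (Sum.inl ()) (Sum.inr (Sum.inl j))
      + ∑ j, ∑ i, d j * e i * T (Sum.inr (Sum.inr i)) (Sum.inr (Sum.inl j))
      + ∑ j, ∑ k, if k < j then d j * d k * T (Sum.inr (Sum.inl j)) (Sum.inr (Sum.inl k))
          else 0) := by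
  rw [pr_expand, pr_expand]
  simp only [Z, Prod.snd_add, Prod.fst_add, Pi.add_apply, Pi.zero_apply, add_zero]
  have h1 : ∀ j k : Fin n, Wm om.2.1 (om.2.2.1 + d) j k =
      Wm om.2.1 om.2.2.1 j k + (if k < j then om.2.2.1 j * d k + d j * om.2.2.1 k + d j * d k
        else 0) := by
    intro j k
    unfold Wm
    by_cases h : j ≤ k
    · simp [h, not_lt.2 h]
    · simp only [h, if_false, not_le.1 h, if_true, Pi.add_apply]; ring
  have h2 : ∑ j, ∑ k, (if k < j then om.2.2.1 j * d k + d j * om.2.2.1 k + d j * d k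
        else 0) * T (Sum.inr (Sum.inl j)) (Sum.inr (Sum.inl k)) =
      ∑ j, ∑ k, if k < j then d j * d k * T (Sum.inr (Sum.inl j)) (Sum.inr (Sum.inl k))
          else 0 := by
    have h3 : ∑ j, ∑ k, (if k < j then om.2.2.1 j * d k + d j * om.2.2.1 k
        else 0) * T (Sum.inr (Sum.inl j)) (Sum.inr (Sum.inl k)) = 0 := by
      have h4 : ∑ j, ∑ k, om.2.2.1 j * (T (Sum.inr (Sum.inl j)) (Sum.inr (Sum.inl k)) * d k)
          = 0 := by
        refine Finset.sum_eq_zero fun j _ => ?_
        rw [← Finset.mul_sum, hker, mul_zero]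
      have h5 : ∑ j, ∑ k, (if k < j then om.2.2.1 j * d k + d j * om.2.2.1 k
          else 0) * T (Sum.inr (Sum.inl j)) (Sum.inr (Sum.inl k)) =
          ∑ j, ∑ k, (if k < j then om.2.2.1 j * d k else 0) *
            T (Sum.inr (Sum.inl j)) (Sum.inr (Sum.inl k)) +
          ∑ j, ∑ k, (if k < j then d j * om.2.2.1 k else 0) *
            T (Sum.inr (Sum.inl j)) (Sum.inr (Sum.inl k)) := by
        rw [← Finset.sum_add_distrib]
        refine Finset.sum_congr rfl fun j _ => ?_
        rw [← Finset.sum_add_distrib]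
        refine Finset.sum_congr rfl fun k _ => ?_
        split_ifs <;> ring
      have h6 : ∑ j, ∑ k, (if k < j then d j * om.2.2.1 k else 0) *
            T (Sum.inr (Sum.inl j)) (Sum.inr (Sum.inl k)) =
          ∑ j, ∑ k, (if j < k then om.2.2.1 j * d k else 0) *
            T (Sum.inr (Sum.inl j)) (Sum.inr (Sum.inl k)) := by
        rw [Finset.sum_comm]
        refine Finset.sum_congr rfl fun j _ => ?_
        refine Finset.sum_congr rfl fun k _ => ?_
        rw [hsym k j]
        split_ifs <;> ring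
      rw [h5, h6, ← Finset.sum_add_distrib]
      refine Eq.trans ?_ h4
      refine Finset.sum_congr rfl fun j _ => ?_
      rw [← Finset.sum_add_distrib]
      refine Finset.sum_congr rfl fun k _ => ?_
      rcases lt_trichotomy j k with h | h | h
      · simp only [h, not_lt.2 h.le, if_true, if_false]; ring
      · subst h; simp [hdiag]
      · simp only [h, not_lt.2 h.le, if_true, if_false]; ring
    have h7 : ∑ j, ∑ k, (if k < j then om.2.2.1 j * d k + d j * om.2.2.1 k + d j * d k
        else 0) * T (Sum.inr (Sum.inl j)) (Sum.inr (Sum.inl k)) =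
        (∑ j, ∑ k, (if k < j then om.2.2.1 j * d k + d j * om.2.2.1 k
        else 0) * T (Sum.inr (Sum.inl j)) (Sum.inr (Sum.inl k))) +
        ∑ j, ∑ k, if k < j then d j * d k * T (Sum.inr (Sum.inl j)) (Sum.inr (Sum.inl k))
          else 0 := by
      rw [← Finset.sum_add_distrib]
      refine Finset.sum_congr rfl fun j _ => ?_
      rw [← Finset.sum_add_distrib]
      refine Finset.sum_congr rfl fun k _ => ?_
      split_ifs <;> ring
    rw [h7, h3, zero_add]
  simp only [h1, add_mul, Finset.sum_add_distrib, h2]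
  ring

/-- Mean zero: bits of `eps`. -/
lemma vanish_ep (d : Fin n → F)
    (hsym : ∀ j k : Fin n, T (Sum.inr (Sum.inl j)) (Sum.inr (Sum.inl k)) =
      T (Sum.inr (Sum.inl k)) (Sum.inr (Sum.inl j)))
    (hdiag : ∀ j : Fin n, T (Sum.inr (Sum.inl j)) (Sum.inr (Sum.inl j)) = 0)
    (hker : ∀ j : Fin n, ∑ k, T (Sum.inr (Sum.inl j)) (Sum.inr (Sum.inl k)) * d k = 0)
    (h1 : ∑ j, d j * T (Sum.inl ()) (Sum.inr (Sum.inl j))
      + ∑ j, ∑ i, d j * e i * T (Sum.inr (Sum.inr i)) (Sum.inr (Sum.inl j))
      + ∑ j, ∑ k, (if k < j then d j * d k * T (Sum.inr (Sum.inl j)) (Sum.inr (Sum.inl k))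
          else 0) = 1) :
    ∑ om : Om n I, chi (pr (Z M e l om) T) = 0 := by
  refine sum_chi_eq_zero _ (Equiv.addRight ((0, 0, d, 0, 0) : Om n I)) fun om => ?_
  rw [Equiv.coe_addRight, pr_shift_ep M e l T om d hsym hdiag hker, h1]

/-- A matrix all of whose sign sums survive satisfies many linear conditions. -/
lemma survive (h : ∑ om : Om n I, chi (pr (Z M e l om) T) ≠ 0) :
    (∀ j k : Fin n, T (Sum.inr (Sum.inl j)) (Sum.inr (Sum.inl k)) =
      T (Sum.inr (Sum.inl k)) (Sum.inr (Sum.inl j))) ∧
    (∀ j : Fin n, T (Sum.inr (Sum.inl j)) (Sum.inr (Sum.inl j)) = 0) ∧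
    (∀ (j : Fin n) (i : I), T (Sum.inr (Sum.inl j)) (Sum.inr (Sum.inr i)) =
      T (Sum.inr (Sum.inr i)) (Sum.inr (Sum.inl j))) ∧
    (∀ j : Fin n, T (Sum.inr (Sum.inl j)) (Sum.inl ()) = 0) := by
  refine ⟨?_, ?_, ?_, ?_⟩
  · intro j k
    by_cases hjk : j = k
    · rw [hjk]
    · by_contra hcon
      exact h (vanish_w M e l T j k hjk fun h0 => hcon (add_eq_zero'.1 h0))
  · intro j
    by_contra hcon
    exact h (vanish_d M e l T j hcon)
  · intro j i
    by_contra hcon
    exact h (vanish_s M e l T j i fun h0 => hcon (add_eq_zero'.1 h0))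
  · intro j
    by_contra hcon
    exact h (vanish_lam M e l T j hcon)

variable {r : ℕ}

/-- The matrix of a character evaluated on a tuple of vectors. -/
def Tc (V : Fin r → R n I → F) (c : Fin r × R n I → F) : Matrix (R n I) (R n I) F :=
  fun a b => ∑ k, c (k, a) * V k b

lemma dot_eq (V : Fin r → R n I → F) (c : Fin r × R n I → F) (A : Matrix (R n I) (R n I) F) :
    ∑ p, c p * A.mulVec (V p.1) p.2 = pr A (Tc V c) := by
  rw [Fintype.sum_prod_type, Finset.sum_comm]
  refine Finset.sum_congr rfl fun a _ => ?_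
  simp only [Matrix.mulVec, dotProduct, Tc, Finset.mul_sum]
  rw [Finset.sum_comm]
  refine Finset.sum_congr rfl fun b _ => Finset.sum_congr rfl fun k _ => ?_
  ring

/-- The matrix of a character of the rows of the large primes, evaluated on one vector. -/
def T0 (v : R n I → F) (c : Fin n → F) : Matrix (R n I) (R n I) F :=
  fun a b => match a with
    | Sum.inl _ => 0
    | Sum.inr (Sum.inl j) => c j * v b
    | Sum.inr (Sum.inr _) => 0

lemma dot_eq0 (v : R n I → F) (c : Fin n → F) (A : Matrix (R n I) (R n I) F) :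
    ∑ j, c j * A.mulVec v (Sum.inr (Sum.inl j)) = pr A (T0 v c) := by
  simp only [pr, Fintype.sum_sum_type, T0, mul_zero, Finset.sum_const_zero, add_zero, zero_add]
  refine Finset.sum_congr rfl fun j _ => ?_
  simp only [Matrix.mulVec, dotProduct, Fintype.sum_sum_type, mul_add, Finset.mul_sum]
  congr 1
  · refine Finset.sum_congr rfl fun b _ => ?_
    ring
  · congr 1
    · exact Finset.sum_congr rfl fun b _ => by ring
    · exact Finset.sum_congr rfl fun b _ => by ring

lemma pr_add_right (A T T' : Matrix (R n I) (R n I) F) : pr A (T + T') = pr A T + pr A T' := by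
  simp only [pr, Matrix.add_apply, mul_add, Finset.sum_add_distrib]

/-- The components of the vectors at the large primes. -/
def yy (V : Fin r → R n I → F) (k : Fin r) (j : Fin n) : F := V k (Sum.inr (Sum.inl j))

/-- Independence of the components at the large primes, in elementary form. -/
def YI (V : Fin r → R n I → F) : Prop :=
  ∀ a : Fin r → F, (∀ j, ∑ k, a k * yy V k j = 0) → a = 0

/-- The components at the large primes take all values. -/
def Onto (V : Fin r → R n I → F) : Prop :=
  ∀ a : Fin r → F, ∃ j, ∀ k, yy V k j = a k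

lemma Onto.YI {V : Fin r → R n I → F} (h : Onto V) : YI V := by
  intro a ha
  funext m
  obtain ⟨j, hj⟩ := h (Pi.single m 1)
  have h1 := ha j
  simp only [hj] at h1
  rw [Finset.sum_eq_single m] at h1
  · simpa using h1
  · intro k _ hk
    rw [Pi.single_eq_of_ne hk, mul_zero]
  · intro h; exact absurd (Finset.mem_univ _) h

/-- A dual system. -/
lemma YI.dual {V : Fin r → R n I → F} (h : YI V) :
    ∃ z : Fin r → Fin n → F, ∀ m k, ∑ j, z m j * yy V k j = if m = k then 1 else 0 := by
  classical
  let Y : (Fin r → F) →ₗ[F] (Fin n → F) :=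
    { toFun := fun a j => ∑ k, a k * yy V k j
      map_add' := fun a b => by
        funext j
        simp only [Pi.add_apply, add_mul, Finset.sum_add_distrib]
      map_smul' := fun c a => by
        funext j
        simp only [Pi.smul_apply, smul_eq_mul, Finset.mul_sum, RingHom.id_apply, mul_assoc] }
  have hY : LinearMap.ker Y = ⊥ := by
    rw [LinearMap.ker_eq_bot']
    intro a ha
    exact h a fun j => congrFun ha j
  obtain ⟨g, hg⟩ := LinearMap.exists_leftInverse_of_injective Y hY
  refine ⟨fun m j => g (Pi.single j 1) m, fun m k => ?_⟩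
  have h1 : g (Y (Pi.single k 1)) = Pi.single k 1 := by
    have := LinearMap.congr_fun hg (Pi.single k 1)
    simpa using this
  have h2 : Y (Pi.single k 1) = yy V k := by
    funext j
    change ∑ k', (Pi.single k 1 : Fin r → F) k' * yy V k' j = _
    rw [Finset.sum_eq_single k]
    · simp
    · intro k' _ hk'
      rw [Pi.single_eq_of_ne hk', zero_mul]
    · intro h; exact absurd (Finset.mem_univ _) h
  have h3 : g (yy V k) = ∑ j, yy V k j • g (Pi.single j 1) := by
    conv_lhs => rw [← Finset.univ_sum_single (yy V k)]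
    rw [map_sum]
    refine Finset.sum_congr rfl fun j _ => ?_
    rw [← map_smul]
    congr 1
    funext x
    by_cases hx : x = j
    · subst hx; simp
    · simp [Pi.single_eq_of_ne hx]
  rw [h2, h3] at h1
  have h4 := congrFun h1 m
  simp only [Finset.sum_apply, Pi.smul_apply, smul_eq_mul] at h4
  have h5 : ∑ j, g (Pi.single j 1) m * yy V k j = ∑ j, yy V k j * g (Pi.single j 1) m :=
    Finset.sum_congr rfl fun j _ => mul_comm _ _
  rw [h5, h4]
  by_cases hmk : m = k
  · subst hmk; simp
  · rw [Pi.single_eq_of_ne hmk]; simp [hmk]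

end Pool.Agent.C1L
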