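import Mathlib
import Pool.Agent.C1L.LA3

set_option autoImplicit false
set_option linter.unusedSectionVars false

/-!
# How often a tuple of vectors lies in the kernel of `Z`
-/

namespace Pool.Agent.C1L

open Finset

variable {n : ℕ} {I : Type} [Fintype I] [DecidableEq I]
variable (M : Matrix I I F) (e l : I → F)
variable {r : ℕ}

lemma cform {V : Fin r → R n I → F} {z : Fin r → Fin n → F}
    (hz : ∀ m k, ∑ j, z m j * yy V k j = if m = k then 1 else 0) {c : Fin r → Fin n → F}
    (hsym : ∀ j k : Fin n, ∑ m, c m j * yy V m k = ∑ m, c m k * yy V m j) (m : Fin r)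
    (j : Fin n) : c m j = ∑ k, (∑ i, z m i * c k i) * yy V k j := by
  have h1 : ∑ i, z m i * ∑ k, c k j * yy V k i = c m j := by
    simp only [Finset.mul_sum]
    rw [Finset.sum_comm]
    have h2 : ∀ k, ∑ i, z m i * (c k j * yy V k i) = c k j * if m = k then 1 else 0 := by
      intro k
      rw [← hz m k, Finset.mul_sum]
      exact Finset.sum_congr rfl fun i _ => by ring
    simp only [h2]
    rw [Finset.sum_eq_single m]
    · simp
    · intro k _ hk
      simp [Ne.symm hk]
    · intro h; exact absurd (Finset.mem_univ _) h
  rw [← h1]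
  simp only [hsym j]
  simp only [Finset.mul_sum, Finset.sum_mul]
  rw [Finset.sum_comm]
  exact Finset.sum_congr rfl fun k _ => Finset.sum_congr rfl fun i _ => by ring

/-- The outputs of a tuple. -/
def fT (V : Fin r → R n I → F) (om : Om n I) (p : Fin r × R n I) : F :=
  (Z M e l om).mulVec (V p.1) p.2

lemma fT_zero (V : Fin r → R n I → F) (om : Om n I) :
    fT M e l V om = 0 ↔ ∀ k, (Z M e l om).mulVec (V k) = 0 := by
  constructor
  · intro h k
    funext a
    exact congrFun h (k, a)
  · intro h
    funext p
    exact congrFun (h p.1) p.2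

lemma card_R : Fintype.card (R n I) = n + Fintype.card I + 1 := by
  simp [R, add_comm]

lemma card_idx : Fintype.card (Fin r × R n I) = r * (n + Fintype.card I + 1) := by
  rw [Fintype.card_prod, Fintype.card_fin, card_R]

/-- A tuple which is onto lies in the kernel with exactly the expected frequency. -/
theorem count_onto (V : Fin r → R n I → F) (hV : Onto V) :
    (2 : ℤ) ^ (r * (n + Fintype.card I + 1)) *
      ((univ.filter fun om : Om n I => ∀ k, (Z M e l om).mulVec (V k) = 0).card : ℤ) =
      Fintype.card (Om n I) := by
  have h0 : (univ.filter fun om : Om n I => ∀ k, (Z M e l om).mulVec (V k) = 0) =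
      univ.filter fun om : Om n I => fT M e l V om = 0 := by
    ext om; simp only [Finset.mem_filter, fT_zero]
  rw [h0, ← card_idx (n := n) (I := I) (r := r)]
  refine card_zero_eq (fT M e l V) fun c hc => ?_
  by_contra hsum
  have hsum' : ∑ om : Om n I, chi (pr (Z M e l om) (Tc V c)) ≠ 0 := by
    intro h; apply hsum; rw [← h]
    refine Finset.sum_congr rfl fun om _ => ?_
    rw [← dot_eq]; rfl
  obtain ⟨hw, hd, hs, -⟩ := survive M e l (Tc V c) hsum'
  obtain ⟨z, hz⟩ := hV.YI.dual
  have hsym : ∀ j k : Fin n, ∑ m, c (m, Sum.inr (Sum.inl j)) * yy V m k =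
      ∑ m, c (m, Sum.inr (Sum.inl k)) * yy V m j := fun j k => hw j k
  have hcf := cform (c := fun m j => c (m, Sum.inr (Sum.inl j))) hz hsym
  set G : Fin r → Fin r → F := fun m k => ∑ i, z m i * c (k, Sum.inr (Sum.inl i)) with hG
  -- the bilinear form
  let ga : (Fin r → F) → (Fin r → F) → F := fun a b => ∑ m, ∑ k, a m * G m k * b k
  have hga : ∀ (a : Fin r → F) (j : Fin n), ga a (fun k => yy V k j) =
      ∑ m, a m * c (m, Sum.inr (Sum.inl j)) := by
    intro a j
    simp only [ga]
    refine Finset.sum_congr rfl fun m _ => ?_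
    rw [hcf m j, Finset.mul_sum]
    exact Finset.sum_congr rfl fun k _ => by rw [mul_assoc]
  have hT : ∀ j k : Fin n, Tc V c (Sum.inr (Sum.inl j)) (Sum.inr (Sum.inl k)) =
      ga (fun m => yy V m k) (fun m => yy V m j) := by
    intro j k
    rw [hga]
    exact Finset.sum_congr rfl fun m _ => mul_comm _ _
  have hsymm : ∀ a b, ga a b = ga b a := by
    intro a b
    obtain ⟨j, hj⟩ := hV a
    obtain ⟨k, hk⟩ := hV b
    have hj' : (fun m => yy V m j) = a := funext hj
    have hk' : (fun m => yy V m k) = b := funext hk
    rw [← hj', ← hk', ← hT, ← hT, hw]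
  have halt : ∀ a, ga a a = 0 := by
    intro a
    obtain ⟨j, hj⟩ := hV a
    have hj' : (fun m => yy V m j) = a := funext hj
    rw [← hj', ← hT, hd]
  have hadd : ∀ a b b', ga a (b + b') = ga a b + ga a b' := by
    intro a b b'
    simp only [ga, Pi.add_apply, mul_add, Finset.sum_add_distrib]
  by_cases hg : ∃ a b, ga a b ≠ 0
  · obtain ⟨a, b, hab⟩ := hg
    have hab1 : ga a b = 1 := eq_one_of_ne_zero hab
    obtain ⟨j1, hj1⟩ := hV a
    obtain ⟨j2, hj2⟩ := hV b
    obtain ⟨j3, hj3⟩ := hV (a + b)
    have e1 : (fun m => yy V m j1) = a := funext hj1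
    have e2 : (fun m => yy V m j2) = b := funext hj2
    have e3 : (fun m => yy V m j3) = a + b := funext hj3
    have hne_ab : a ≠ b := by rintro rfl; exact hab (halt a)
    have ha0 : a ≠ 0 := by
      rintro rfl; apply hab; simp [ga]
    have hb0 : b ≠ 0 := by
      rintro rfl; apply hab; simp [ga]
    have h12 : j1 ≠ j2 := by
      rintro rfl; exact hne_ab (e1.symm.trans e2)
    have h13 : j1 ≠ j3 := by
      rintro rfl
      have : a = a + b := e1.symm.trans e3
      exact hb0 (by simpa using this.symm)
    have h23 : j2 ≠ j3 := by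
      rintro rfl
      have : b = a + b := e2.symm.trans e3
      exact ha0 (by simpa using this.symm)
    -- the shift
    set d : Fin n → F := Pi.single j1 1 + Pi.single j2 1 + Pi.single j3 1 with hdd
    have hdsum : ∀ g : Fin n → F, ∑ j, g j * d j = g j1 + g j2 + g j3 := by
      intro g
      have hs1 : ∀ x : Fin n, ∑ j, g j * (Pi.single x 1 : Fin n → F) j = g x := by
        intro x
        rw [Finset.sum_eq_single x]
        · simp
        · intro j _ hj; rw [Pi.single_eq_of_ne hj, mul_zero]
        · intro h; exact absurd (Finset.mem_univ _) h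
      simp only [hdd, Pi.add_apply, mul_add, Finset.sum_add_distrib, hs1]
    have hdsum' : ∀ g : Fin n → F, ∑ j, d j * g j = g j1 + g j2 + g j3 := by
      intro g
      rw [← hdsum]
      exact Finset.sum_congr rfl fun j _ => mul_comm _ _
    have hcol : ∀ g : Fin r → F, (∑ m, g m * yy V m j1) + (∑ m, g m * yy V m j2) +
        (∑ m, g m * yy V m j3) = 0 := by
      intro g
      simp only [hj1, hj2, hj3, Pi.add_apply, mul_add, Finset.sum_add_distrib]
      have := add_self (∑ m, g m * a m)
      have := add_self (∑ m, g m * b m)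
      linear_combination add_self (∑ m, g m * a m) + add_self (∑ m, g m * b m)
    refine hsum' (vanish_ep M e l (Tc V c) d hw hd ?_ ?_)
    · intro j
      rw [hdsum]
      exact hcol fun m => c (m, Sum.inr (Sum.inl j))
    · have q1 : ∑ j, d j * Tc V c (Sum.inl ()) (Sum.inr (Sum.inl j)) = 0 := by
        rw [hdsum']
        exact hcol fun m => c (m, Sum.inl ())
      have q2 : ∑ j, ∑ i, d j * e i * Tc V c (Sum.inr (Sum.inr i)) (Sum.inr (Sum.inl j)) = 0 := by
        rw [Finset.sum_comm]
        refine Finset.sum_eq_zero fun i _ => ?_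
        have : ∑ j, d j * e i * Tc V c (Sum.inr (Sum.inr i)) (Sum.inr (Sum.inl j)) =
            e i * ∑ j, d j * Tc V c (Sum.inr (Sum.inr i)) (Sum.inr (Sum.inl j)) := by
          rw [Finset.mul_sum]
          exact Finset.sum_congr rfl fun j _ => by ring
        rw [this, hdsum']
        have h9 := hcol fun m => c (m, Sum.inr (Sum.inr i))
        have h10 : Tc V c (Sum.inr (Sum.inr i)) (Sum.inr (Sum.inl j1)) +
            Tc V c (Sum.inr (Sum.inr i)) (Sum.inr (Sum.inl j2)) +
            Tc V c (Sum.inr (Sum.inr i)) (Sum.inr (Sum.inl j3)) = 0 := h9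
        rw [h10, mul_zero]
      have q3 : ∀ x y : Fin n → F, ∀ g : Fin n → Fin n → F, (∀ j k, g j k = g k j) →
          (∀ j, g j j = 0) → ∑ j, ∑ k, (if k < j then (x j * y k + y j * x k) * g j k else 0) =
            ∑ j, x j * ∑ k, g j k * y k := by
        intro x y g hgs hg0
        have h5 : ∑ j, ∑ k, (if k < j then (x j * y k + y j * x k) * g j k else 0) =
            ∑ j, ∑ k, (if k < j then x j * y k * g j k else 0) +
            ∑ j, ∑ k, (if k < j then y j * x k * g j k else 0) := by
          rw [← Finset.sum_add_distrib]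
          refine Finset.sum_congr rfl fun j _ => ?_
          rw [← Finset.sum_add_distrib]
          refine Finset.sum_congr rfl fun k _ => ?_
          split_ifs <;> ring
        have h6 : ∑ j, ∑ k, (if k < j then y j * x k * g j k else 0) =
            ∑ j, ∑ k, (if j < k then x j * y k * g j k else 0) := by
          rw [Finset.sum_comm]
          refine Finset.sum_congr rfl fun j _ => Finset.sum_congr rfl fun k _ => ?_
          rw [hgs k j]
          split_ifs <;> ring
        rw [h5, h6, ← Finset.sum_add_distrib]
        refine Finset.sum_congr rfl fun j _ => ?_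
        rw [← Finset.sum_add_distrib, Finset.mul_sum]
        refine Finset.sum_congr rfl fun k _ => ?_
        rcases lt_trichotomy j k with h | h | h
        · simp only [h, not_lt.2 h.le, if_true, if_false]; ring
        · subst h; simp [hg0]
        · simp only [h, not_lt.2 h.le, if_true, if_false]; ring
      have q4 : ∀ x : Fin n, ∀ g : Fin n → Fin n → F,
          ∑ j, ∑ k, (if k < j then (Pi.single x 1 : Fin n → F) j * (Pi.single x 1 : Fin n → F) k *
            g j k else 0) = 0 := by
        intro x g
        refine Finset.sum_eq_zero fun j _ => Finset.sum_eq_zero fun k _ => ?_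
        split_ifs with h
        · by_cases hj : j = x
          · have hk : k ≠ x := by rintro rfl; exact absurd (hj ▸ h) (lt_irrefl _)
            rw [Pi.single_eq_of_ne hk]; ring
          · rw [Pi.single_eq_of_ne hj]; ring
        · rfl
      have q5 : ∑ j, ∑ k, (if k < j then d j * d k *
          Tc V c (Sum.inr (Sum.inl j)) (Sum.inr (Sum.inl k)) else 0) = 1 := by
        set g : Fin n → Fin n → F := fun j k => Tc V c (Sum.inr (Sum.inl j)) (Sum.inr (Sum.inl k))
          with hgdef
        have hs1 : ∀ (x : Fin n) (f : Fin n → F), ∑ j, (Pi.single x 1 : Fin n → F) j * f j =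
            f x := by
          intro x f
          rw [Finset.sum_eq_single x]
          · simp
          · intro j _ hj; rw [Pi.single_eq_of_ne hj, zero_mul]
          · intro h; exact absurd (Finset.mem_univ _) h
        have hs2 : ∀ (x : Fin n) (f : Fin n → F), ∑ j, f j * (Pi.single x 1 : Fin n → F) j =
            f x := by
          intro x f
          rw [← hs1 x f]
          exact Finset.sum_congr rfl fun j _ => mul_comm _ _
        have hex : ∑ j, ∑ k, (if k < j then d j * d k * g j k else 0) =
            (∑ j, ∑ k, (if k < j then (Pi.single j1 1 : Fin n → F) j *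
              (Pi.single j1 1 : Fin n → F) k * g j k else 0)) +
            (∑ j, ∑ k, (if k < j then (Pi.single j2 1 : Fin n → F) j *
              (Pi.single j2 1 : Fin n → F) k * g j k else 0)) +
            (∑ j, ∑ k, (if k < j then (Pi.single j3 1 : Fin n → F) j *
              (Pi.single j3 1 : Fin n → F) k * g j k else 0)) +
            (∑ j, ∑ k, (if k < j then ((Pi.single j1 1 : Fin n → F) j *
              (Pi.single j2 1 : Fin n → F) k + (Pi.single j2 1 : Fin n → F) j *
              (Pi.single j1 1 : Fin n → F) k) * g j k else 0)) +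
            (∑ j, ∑ k, (if k < j then ((Pi.single j1 1 : Fin n → F) j *
              (Pi.single j3 1 : Fin n → F) k + (Pi.single j3 1 : Fin n → F) j *
              (Pi.single j1 1 : Fin n → F) k) * g j k else 0)) +
            (∑ j, ∑ k, (if k < j then ((Pi.single j2 1 : Fin n → F) j *
              (Pi.single j3 1 : Fin n → F) k + (Pi.single j3 1 : Fin n → F) j *
              (Pi.single j2 1 : Fin n → F) k) * g j k else 0)) := by
          simp only [← Finset.sum_add_distrib]
          refine Finset.sum_congr rfl fun j _ => Finset.sum_congr rfl fun k _ => ?_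
          simp only [hdd, Pi.add_apply]
          split_ifs <;> ring
        rw [hex, q4, q4, q4, q3 _ _ g (fun j k => hw j k) (fun j => hd j),
          q3 _ _ g (fun j k => hw j k) (fun j => hd j),
          q3 _ _ g (fun j k => hw j k) (fun j => hd j)]
        simp only [hs1, hs2, hgdef]
        rw [hT, hT, hT, e1, e2, e3]
        have r1 : ga b a = 1 := (hsymm b a).trans hab1
        have r2 : ga (a + b) a = 1 := by
          rw [hsymm, hadd, halt, hab1, zero_add]
        have r3 : ga (a + b) b = 1 := by
          rw [hsymm, hadd, halt, r1, add_zero]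
        rw [r1, r2, r3]
        decide
      rw [q1, q2, q5]
      decide
  · push Not at hg
    have hcL : ∀ m j, c (m, Sum.inr (Sum.inl j)) = 0 := by
      intro m j
      have h1 := hga (Pi.single m 1) j
      rw [hg] at h1
      rw [Finset.sum_eq_single m] at h1
      · simpa using h1.symm
      · intro k _ hk; rw [Pi.single_eq_of_ne hk, zero_mul]
      · intro h; exact absurd (Finset.mem_univ _) h
    have hTz : ∀ (j : Fin n) (b : R n I), Tc V c (Sum.inr (Sum.inl j)) b = 0 := by
      intro j b
      simp only [Tc, hcL, zero_mul, Finset.sum_const_zero]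
    have hcI : ∀ m i, c (m, Sum.inr (Sum.inr i)) = 0 := by
      intro m i
      have h1 : (fun m => c (m, Sum.inr (Sum.inr i))) = 0 := by
        refine hV.YI _ fun j => ?_
        have h2 := hs j i
        rw [hTz] at h2
        exact h2.symm
      exact congrFun h1 m
    obtain ⟨⟨m0, a0⟩, hm0⟩ : ∃ p, c p ≠ 0 := by
      by_contra hcon
      push Not at hcon
      exact hc (funext hcon)
    have ha0 : a0 = Sum.inl () := by
      rcases a0 with u | j | i
      · rfl
      · exact absurd (hcL m0 j) hm0
      · exact absurd (hcI m0 i) hm0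
    subst ha0
    obtain ⟨j, hj⟩ := hV (Pi.single m0 1)
    refine hsum' (vanish_ep M e l (Tc V c) (Pi.single j 1) hw hd ?_ ?_)
    · intro k
      simp only [hTz, zero_mul, Finset.sum_const_zero]
    · have q1 : ∑ k, (Pi.single j 1 : Fin n → F) k * Tc V c (Sum.inl ()) (Sum.inr (Sum.inl k)) =
          1 := by
        rw [Finset.sum_eq_single j]
        · rw [Pi.single_eq_same, one_mul]
          change ∑ k, c (k, Sum.inl ()) * yy V k j = 1
          simp only [hj]
          rw [Finset.sum_eq_single m0]
          · rw [Pi.single_eq_same, mul_one]; exact eq_one_of_ne_zero hm0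
          · intro k _ hk; rw [Pi.single_eq_of_ne hk, mul_zero]
          · intro h; exact absurd (Finset.mem_univ _) h
        · intro k _ hk; rw [Pi.single_eq_of_ne hk, zero_mul]
        · intro h; exact absurd (Finset.mem_univ _) h
      have q2 : ∀ (i : I) (k : Fin n), Tc V c (Sum.inr (Sum.inr i)) (Sum.inr (Sum.inl k)) = 0 := by
        intro i k
        simp only [Tc, hcI, zero_mul, Finset.sum_const_zero]
      simp only [q1, q2, hTz, mul_zero, ite_self, Finset.sum_const_zero, add_zero]

end Pool.Agent.C1L
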