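import Mathlib
import Pool.Agent.C1L.LA4

set_option autoImplicit false
set_option linter.unusedSectionVars false

/-!
# Upper bounds for the frequency of tuples in the kernel of `Z`
-/

namespace Pool.Agent.C1L

open Finset

variable {n : ℕ} {I : Type} [Fintype I] [DecidableEq I]
variable (M : Matrix I I F) (e l : I → F)
variable {r : ℕ}

/-- The linear conditions satisfied by a surviving matrix. -/
def Surv (T : Matrix (R n I) (R n I) F) : Prop :=
    (∀ j k : Fin n, T (Sum.inr (Sum.inl j)) (Sum.inr (Sum.inl k)) =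
      T (Sum.inr (Sum.inl k)) (Sum.inr (Sum.inl j))) ∧
    (∀ j : Fin n, T (Sum.inr (Sum.inl j)) (Sum.inr (Sum.inl j)) = 0) ∧
    (∀ (j : Fin n) (i : I), T (Sum.inr (Sum.inl j)) (Sum.inr (Sum.inr i)) =
      T (Sum.inr (Sum.inr i)) (Sum.inr (Sum.inl j))) ∧
    (∀ j : Fin n, T (Sum.inr (Sum.inl j)) (Sum.inl ()) = 0)

lemma uniq {V : Fin r → R n I → F} (hV : YI V) {z : Fin r → Fin n → F}
    (hz : ∀ m k, ∑ j, z m j * yy V k j = if m = k then 1 else 0)
    {c1 c2 : Fin r × R n I → F} {d1 d2 : Fin n → F} {v : R n I → F}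
    (hy : ∀ j : Fin n, v (Sum.inr (Sum.inl j)) = 0)
    (h1 : Surv (Tc V c1 + T0 v d1)) (h2 : Surv (Tc V c2 + T0 v d2))
    (hG : ∀ m k, ∑ i, z m i * c1 (k, Sum.inr (Sum.inl i)) =
      ∑ i, z m i * c2 (k, Sum.inr (Sum.inl i)))
    (h0 : ∀ m, c1 (m, Sum.inl ()) = c2 (m, Sum.inl ()))
    (hd : (∀ m j, c1 (m, Sum.inr (Sum.inl j)) = c2 (m, Sum.inr (Sum.inl j))) → d1 = d2) :
    c1 = c2 ∧ d1 = d2 := by
  have hsym : ∀ (c : Fin r × R n I → F) (d : Fin n → F), Surv (Tc V c + T0 v d) →
      ∀ j k : Fin n, ∑ m, c (m, Sum.inr (Sum.inl j)) * yy V m k =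
      ∑ m, c (m, Sum.inr (Sum.inl k)) * yy V m j := by
    intro c d h j k
    have h3 := h.1 j k
    simp only [Matrix.add_apply, T0, hy, mul_zero, add_zero] at h3
    exact h3
  have hL : ∀ m j, c1 (m, Sum.inr (Sum.inl j)) = c2 (m, Sum.inr (Sum.inl j)) := by
    intro m j
    have e1 := cform (c := fun m j => c1 (m, Sum.inr (Sum.inl j))) hz (hsym c1 d1 h1) m j
    have e2 := cform (c := fun m j => c2 (m, Sum.inr (Sum.inl j))) hz (hsym c2 d2 h2) m j
    refine e1.trans (Eq.trans ?_ e2.symm)
    exact Finset.sum_congr rfl fun k _ => by rw [hG m k]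
  have hdd := hd hL
  refine ⟨?_, hdd⟩
  have hI : ∀ m i, c1 (m, Sum.inr (Sum.inr i)) = c2 (m, Sum.inr (Sum.inr i)) := by
    intro m i
    have h3 : (fun m => c1 (m, Sum.inr (Sum.inr i)) - c2 (m, Sum.inr (Sum.inr i))) = 0 := by
      refine hV _ fun j => ?_
      have f1 := h1.2.2.1 j i
      have f2 := h2.2.2.1 j i
      simp only [Matrix.add_apply, T0, add_zero, Tc, hL, hdd] at f1 f2
      have f3 : ∑ k, c1 (k, Sum.inr (Sum.inr i)) * V k (Sum.inr (Sum.inl j)) =
          ∑ k, c2 (k, Sum.inr (Sum.inr i)) * V k (Sum.inr (Sum.inl j)) := by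
        rw [← f1, ← f2]
      simp only [sub_mul, Finset.sum_sub_distrib]
      exact sub_eq_zero.2 f3
    exact sub_eq_zero.1 (congrFun h3 m)
  funext ⟨m, a⟩
  rcases a with u | j | i
  · exact h0 m
  · exact hL m j
  · exact hI m i

/-- Upper bound for tuples whose components at the large primes are independent. -/
theorem count_YI (V : Fin r → R n I → F) (hV : YI V) :
    (2 : ℤ) ^ (r * (n + Fintype.card I + 1)) *
      ((univ.filter fun om : Om n I => ∀ k, (Z M e l om).mulVec (V k) = 0).card : ℤ) ≤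
      2 ^ (r * r + r) * Fintype.card (Om n I) := by
  have h0 : (univ.filter fun om : Om n I => ∀ k, (Z M e l om).mulVec (V k) = 0) =
      univ.filter fun om : Om n I => fT M e l V om = 0 := by
    ext om; simp only [Finset.mem_filter, fT_zero]
  rw [h0, ← card_idx (n := n) (I := I) (r := r)]
  obtain ⟨z, hz⟩ := hV.dual
  have hκ : (2 : ℤ) ^ (r * r + r) =
      (Fintype.card ((Fin r → Fin r → F) × (Fin r → F)) : ℤ) := by
    simp [ZMod.card, pow_add, pow_mul]
  rw [hκ]
  have hT0 : T0 (n := n) (I := I) 0 0 = 0 := by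
    funext a b
    rcases a with u | j | i <;> simp [T0]
  refine card_zero_le (fT M e l V) (fun c => (fun m k => ∑ i, z m i *
    c (k, Sum.inr (Sum.inl i)), fun m => c (m, Sum.inl ()))) ?_
  intro c1 c2 h1 h2 hD
  have hs : ∀ c : Fin r × R n I → F, ∑ om : Om n I, chi (∑ p, c p * fT M e l V om p) ≠ 0 →
      Surv (Tc V c + T0 0 0) := by
    intro c hc
    rw [hT0, add_zero]
    refine survive M e l (Tc V c) ?_
    intro h; apply hc; rw [← h]
    refine Finset.sum_congr rfl fun om _ => ?_
    rw [← dot_eq]; rfl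
  have hD1 := congrArg Prod.fst hD
  have hD2 := congrArg Prod.snd hD
  simp only at hD1 hD2
  exact (uniq hV hz (v := 0) (d1 := 0) (d2 := 0) (fun _ => rfl) (hs c1 h1) (hs c2 h2)
    (fun m k => congrFun (congrFun hD1 m) k) (fun m => congrFun hD2 m) (fun _ => rfl)).1

/-- Upper bound for such tuples together with one vector without components at the large
primes. -/
theorem count_mixed (V : Fin r → R n I → F) (hV : YI V) (v : R n I → F)
    (hy : ∀ j : Fin n, v (Sum.inr (Sum.inl j)) = 0) (hv : v ≠ 0) :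
    (2 : ℤ) ^ (r * (n + Fintype.card I + 1) + n) *
      ((univ.filter fun om : Om n I => (∀ k, (Z M e l om).mulVec (V k) = 0) ∧
        (Z M e l om).mulVec v = 0).card : ℤ) ≤
      2 ^ (r * r + 2 * r) * Fintype.card (Om n I) := by
  classical
  obtain ⟨z, hz⟩ := hV.dual
  set f : Om n I → (Fin r × R n I) ⊕ Fin n → F := fun om => Sum.elim (fT M e l V om)
    (fun j => (Z M e l om).mulVec v (Sum.inr (Sum.inl j))) with hf
  have hsub : (univ.filter fun om : Om n I => (∀ k, (Z M e l om).mulVec (V k) = 0) ∧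
        (Z M e l om).mulVec v = 0) ⊆ univ.filter fun om : Om n I => f om = 0 := by
    intro om hom
    simp only [Finset.mem_filter, Finset.mem_univ, true_and] at hom ⊢
    funext p
    rcases p with p | j
    · exact congrFun ((fT_zero M e l V om).2 hom.1) p
    · exact congrFun hom.2 _
  have hcard : Fintype.card ((Fin r × R n I) ⊕ Fin n) = r * (n + Fintype.card I + 1) + n := by
    rw [Fintype.card_sum, card_idx, Fintype.card_fin]
  have hκ : (2 : ℤ) ^ (r * r + 2 * r) =
      (Fintype.card ((Fin r → Fin r → F) × (Fin r → F) × (Fin r → F)) : ℤ) := by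
    simp [ZMod.card, pow_add, pow_mul, two_mul]
  -- the component used to recover the last part of the character
  obtain ⟨i0, hi0⟩ : ∃ i0 : Option I, v (i0.elim (Sum.inl ()) fun i =>
      Sum.inr (Sum.inr i)) ≠ 0 := by
    by_contra hcon
    push Not at hcon
    apply hv
    funext a
    rcases a with u | j | i
    · exact hcon none
    · exact hy j
    · exact hcon (some i)
  have main : (2 : ℤ) ^ Fintype.card ((Fin r × R n I) ⊕ Fin n) *
      ((univ.filter fun om : Om n I => f om = 0).card : ℤ) ≤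
      Fintype.card ((Fin r → Fin r → F) × (Fin r → F) × (Fin r → F)) *
        Fintype.card (Om n I) := by
    refine card_zero_le f (fun c => (fun m k => ∑ i, z m i *
      c (Sum.inl (k, Sum.inr (Sum.inl i))), fun m => c (Sum.inl (m, Sum.inl ())),
      fun m => i0.elim 0 fun i => c (Sum.inl (m, Sum.inr (Sum.inr i))))) ?_
    intro c1 c2 h1 h2 hD
    have hs : ∀ c : (Fin r × R n I) ⊕ Fin n → F, ∑ om : Om n I, chi (∑ p, c p * f om p) ≠ 0 →
        Surv (Tc V (fun p => c (Sum.inl p)) + T0 v (fun j => c (Sum.inr j))) := by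
      intro c hc
      refine survive M e l _ ?_
      intro h; apply hc; rw [← h]
      refine Finset.sum_congr rfl fun om _ => ?_
      rw [pr_add_right, ← dot_eq, ← dot_eq0, Fintype.sum_sum_type]
      rfl
    have s1 := hs c1 h1
    have s2 := hs c2 h2
    have hD1 := congrArg Prod.fst hD
    have hD2 := congrArg (fun x => x.2.1) hD
    have hD3 := congrArg (fun x => x.2.2) hD
    simp only at hD1 hD2 hD3
    have hu := uniq hV hz (c1 := fun p => c1 (Sum.inl p)) (c2 := fun p => c2 (Sum.inl p))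
      (d1 := fun j => c1 (Sum.inr j)) (d2 := fun j => c2 (Sum.inr j)) hy s1 s2
      (fun m k => congrFun (congrFun hD1 m) k) (fun m => congrFun hD2 m) ?_
    · funext p
      rcases p with p | j
      · exact congrFun hu.1 p
      · exact congrFun hu.2 j
    · intro hL
      funext j
      rcases i0 with _ | i
      · have t1 := s1.2.2.2 j
        have t2 := s2.2.2.2 j
        simp only [Matrix.add_apply, T0, Tc, hL] at t1 t2
        have hv1 : v (Sum.inl ()) = 1 := eq_one_of_ne_zero hi0
        rw [hv1, mul_one] at t1 t2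
        exact add_left_cancel (t1.trans t2.symm)
      · have t1 := s1.2.2.1 j i
        have t2 := s2.2.2.1 j i
        have hD3' : ∀ m, c1 (Sum.inl (m, Sum.inr (Sum.inr i))) =
            c2 (Sum.inl (m, Sum.inr (Sum.inr i))) := fun m => congrFun hD3 m
        simp only [Matrix.add_apply, T0, Tc, hL, hD3', add_zero] at t1 t2
        have hv1 : v (Sum.inr (Sum.inr i)) = 1 := eq_one_of_ne_zero hi0
        rw [hv1, mul_one] at t1 t2
        exact add_left_cancel (t1.trans t2.symm)
  rw [hcard] at main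
  rw [hκ]
  refine le_trans ?_ main
  refine mul_le_mul_of_nonneg_left ?_ (by positivity)
  exact_mod_cast Finset.card_le_card hsub

end Pool.Agent.C1L
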