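import Mathlib

set_option autoImplicit false

/-!
# The constant `∏ (1 - 2 ^ -i)` as an alternating series, and the Bonferroni inequalities
-/

namespace Pool.Agent.C1L

open Finset Filter Topology

/-- The denominators. -/
noncomputable def cf (i : ℕ) : ℝ := ∏ l ∈ range i, (2 ^ (l + 1) - 1)

/-- The number of independent families of length `i` in a space of dimension `d`. -/
noncomputable def bj (d i : ℕ) : ℝ := ∏ l ∈ range i, (2 ^ d - 2 ^ l)

/-- The constant. -/
noncomputable def gam : ℝ := ∏' i : ℕ, (1 - (2 : ℝ)⁻¹ ^ (i + 1))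

lemma cf_factor_pos (l : ℕ) : (1 : ℝ) ≤ 2 ^ (l + 1) - 1 := by
  have : (1 : ℝ) ≤ 2 ^ l := one_le_pow₀ (by norm_num)
  rw [pow_succ]; linarith

lemma cf_pos (i : ℕ) : 0 < cf i :=
  Finset.prod_pos fun l _ => lt_of_lt_of_le one_pos (cf_factor_pos l)

lemma cf_succ (i : ℕ) : cf (i + 1) = cf i * (2 ^ (i + 1) - 1) := by
  rw [cf, Finset.prod_range_succ]; rfl

lemma one_le_cf (i : ℕ) : 1 ≤ cf i := by
  induction i with
  | zero => simp [cf]
  | succ i ih =>
    rw [cf_succ]
    nlinarith [cf_factor_pos i]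

lemma cf_ge (i : ℕ) : (2 : ℝ) ^ i ≤ 2 * cf i := by
  induction i with
  | zero => simp [cf]
  | succ i ih =>
    rw [cf_succ]
    rcases Nat.eq_zero_or_pos i with rfl | hi
    · norm_num [cf]
    · have h1 : (2 : ℝ) ≤ 2 ^ (i + 1) - 1 := by
        have : (2 : ℝ) ≤ 2 ^ i := by
          calc (2 : ℝ) = 2 ^ 1 := by norm_num
            _ ≤ 2 ^ i := pow_le_pow_right₀ (by norm_num) hi
        rw [pow_succ]; linarith
      have h2 := cf_pos i
      calc (2 : ℝ) ^ (i + 1) = 2 ^ i * 2 := pow_succ _ _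
        _ ≤ (2 * cf i) * 2 := by nlinarith
        _ ≤ (2 * cf i) * (2 ^ (i + 1) - 1) := by nlinarith
        _ = 2 * (cf i * (2 ^ (i + 1) - 1)) := by ring

lemma bj_succ (d i : ℕ) : bj d (i + 1) = bj d i * (2 ^ d - 2 ^ i) := by
  rw [bj, Finset.prod_range_succ]; rfl

lemma bj_zero_right (d : ℕ) : bj d 0 = 1 := by simp [bj]

lemma bj_eq_zero {d i : ℕ} (h : d < i) : bj d i = 0 :=
  Finset.prod_eq_zero (Finset.mem_range.2 h) (sub_self _)

lemma bj_shift (d i : ℕ) : bj (d + 1) (i + 1) = (2 ^ (d + 1) - 1) * 2 ^ i * bj d i := by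
  induction i with
  | zero => simp [bj]
  | succ i ih =>
    rw [bj_succ, ih, bj_succ]
    ring

/-- Closed form of the partial sums. -/
lemma partial_sum (d I : ℕ) :
    ∑ i ∈ range (I + 1), (-1) ^ i * bj d i / cf i =
      (-1) ^ I * ∏ l ∈ range I, (((2 : ℝ) ^ d - 2 ^ (l + 1)) / (2 ^ (l + 1) - 1)) := by
  have hb : ∀ I : ℕ, bj d (I + 1) = ((2 : ℝ) ^ d - 1) * ∏ l ∈ range I,
      ((2 : ℝ) ^ d - 2 ^ (l + 1)) := by
    intro I
    rw [bj, Finset.prod_range_succ']
    simp [mul_comm]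
  induction I with
  | zero => simp [bj, cf]
  | succ I ih =>
    rw [Finset.sum_range_succ, ih, hb, Finset.prod_range_succ]
    have h1 : cf (I + 1) ≠ 0 := (cf_pos _).ne'
    have h2 : ((2 : ℝ) ^ (I + 1) - 1) ≠ 0 := (lt_of_lt_of_le one_pos (cf_factor_pos I)).ne'
    have h3 : ∏ l ∈ range I, (((2 : ℝ) ^ d - 2 ^ (l + 1)) / (2 ^ (l + 1) - 1)) =
        (∏ l ∈ range I, ((2 : ℝ) ^ d - 2 ^ (l + 1))) / cf I := by
      rw [Finset.prod_div_distrib]; rfl
    have h4 : cf I ≠ 0 := (cf_pos _).ne'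
    rw [h3, cf_succ]
    set P := ∏ l ∈ range I, ((2 : ℝ) ^ d - 2 ^ (l + 1))
    rw [pow_succ]
    field_simp
    ring

/-- Bonferroni, dimension zero. -/
lemma bonf_zero (I : ℕ) : ∑ i ∈ range (I + 1), (-1) ^ i * bj 0 i / cf i = 1 := by
  rw [partial_sum]
  have h1 : ∀ l ∈ range I, (((2 : ℝ) ^ 0 - 2 ^ (l + 1)) / (2 ^ (l + 1) - 1)) = -1 := by
    intro l _
    have h2 : ((2 : ℝ) ^ (l + 1) - 1) ≠ 0 := (lt_of_lt_of_le one_pos (cf_factor_pos l)).ne'
    rw [div_eq_iff h2]; ring
  rw [Finset.prod_congr rfl h1, Finset.prod_const, Finset.card_range, ← pow_add, ← two_mul,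
    pow_mul]
  norm_num

/-- Bonferroni, positive dimension. -/
lemma bonf_pos {d : ℕ} (hd : 0 < d) (I : ℕ) :
    0 ≤ (-1) ^ I * ∑ i ∈ range (I + 1), (-1) ^ i * bj d i / cf i := by
  rw [partial_sum, ← mul_assoc, ← pow_add, ← two_mul, pow_mul]
  have h0 : ((-1 : ℝ) ^ 2) ^ I = 1 := by norm_num
  rw [h0, one_mul]
  by_cases h : I < d
  · refine Finset.prod_nonneg fun l hl => ?_
    have hl' : l + 1 ≤ d := by
      have := Finset.mem_range.1 hl; omega
    have h1 : (2 : ℝ) ^ (l + 1) ≤ 2 ^ d := pow_le_pow_right₀ (by norm_num) hl'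
    exact div_nonneg (by linarith) (le_trans zero_le_one (cf_factor_pos l))
  · have : ∏ l ∈ range I, (((2 : ℝ) ^ d - 2 ^ (l + 1)) / (2 ^ (l + 1) - 1)) = 0 := by
      refine Finset.prod_eq_zero (i := d - 1) (Finset.mem_range.2 (by omega)) ?_
      have : d - 1 + 1 = d := by omega
      rw [this, sub_self, zero_div]
    rw [this]

/-- The q-binomial theorem for `q = 2`. -/
lemma qbinom (d : ℕ) (x : ℝ) :
    ∏ l ∈ range d, (1 - x * 2 ^ l) = ∑ i ∈ range (d + 1), (-1) ^ i * x ^ i * (bj d i / cf i) := by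
  induction d with
  | zero => simp [bj, cf]
  | succ d ih =>
    have hrec : ∀ i, bj (d + 1) (i + 1) / cf (i + 1) =
        bj d (i + 1) / cf (i + 1) + 2 ^ d * (bj d i / cf i) := by
      intro i
      have h1 : cf i ≠ 0 := (cf_pos _).ne'
      have h2 : ((2 : ℝ) ^ (i + 1) - 1) ≠ 0 := (lt_of_lt_of_le one_pos (cf_factor_pos i)).ne'
      rw [bj_shift, bj_succ, cf_succ]
      field_simp
      ring
    rw [Finset.prod_range_succ, ih, Finset.sum_range_succ' _ (d + 1)]
    have h3 : ∑ k ∈ range (d + 1), (-1) ^ (k + 1) * x ^ (k + 1) *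
        (bj (d + 1) (k + 1) / cf (k + 1)) =
        ∑ k ∈ range (d + 1), (-1) ^ (k + 1) * x ^ (k + 1) * (bj d (k + 1) / cf (k + 1)) +
        ∑ k ∈ range (d + 1), (-(x * 2 ^ d)) * ((-1) ^ k * x ^ k * (bj d k / cf k)) := by
      rw [← Finset.sum_add_distrib]
      refine Finset.sum_congr rfl fun k _ => ?_
      rw [hrec]; ring
    have h4 : ∑ k ∈ range (d + 1), (-1) ^ (k + 1) * x ^ (k + 1) * (bj d (k + 1) / cf (k + 1)) +
        (-1) ^ 0 * x ^ 0 * (bj (d + 1) 0 / cf 0) =
        ∑ k ∈ range (d + 1), (-1) ^ k * x ^ k * (bj d k / cf k) := by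
      have h5 : bj (d + 1) 0 = bj d 0 := by simp [bj]
      rw [h5, ← Finset.sum_range_succ' (fun k => (-1) ^ k * x ^ k * (bj d k / cf k)),
        Finset.sum_range_succ _ (d + 1), bj_eq_zero (Nat.lt_succ_self d)]
      simp
    rw [h3, ← Finset.mul_sum]
    linear_combination -h4

/-- Partial products tend to the constant. -/
lemma tendsto_prod : Tendsto (fun d : ℕ => ∏ l ∈ range d, (1 - (2 : ℝ)⁻¹ ^ (l + 1))) atTop
    (𝓝 gam) := by
  have h : Multipliable fun i : ℕ => (1 - (2 : ℝ)⁻¹ ^ (i + 1)) := by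
    have hs : Summable fun i : ℕ => -((2 : ℝ)⁻¹ ^ (i + 1)) := by
      have := (summable_geometric_of_lt_one (r := (2 : ℝ)⁻¹) (by norm_num) (by norm_num))
      have h2 := (summable_nat_add_iff 1).2 this
      exact h2.neg
    have := Real.multipliable_one_add_of_summable hs
    simpa [sub_eq_add_neg] using this
  exact h.hasProd.tendsto_prod_nat

lemma summable_inv_cf : Summable fun i : ℕ => 1 / cf i := by
  refine Summable.of_nonneg_of_le (fun i => (one_div_pos.2 (cf_pos i)).le) (fun i => ?_)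
    ((summable_geometric_of_lt_one (r := (2 : ℝ)⁻¹) (by norm_num) (by norm_num)).mul_left 2)
  rw [div_le_iff₀ (cf_pos i), inv_pow]
  have h1 := cf_ge i
  have h2 : (0 : ℝ) < 2 ^ i := by positivity
  have : (1 : ℝ) ≤ (2 * cf i) * (2 ^ i)⁻¹ := by
    rw [← div_eq_mul_inv, le_div_iff₀ h2, one_mul]; exact h1
  linarith [this]

/-- The alternating series tends to the constant. -/
lemma tendsto_series : Tendsto (fun I : ℕ => ∑ i ∈ range (I + 1), (-1 : ℝ) ^ i / cf i) atTop
    (𝓝 gam) := by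
  set f : ℕ → ℕ → ℝ := fun d i => (-1) ^ i * ((2 : ℝ)⁻¹ ^ d) ^ i * (bj d i / cf i) with hf
  have hbound : ∀ d i, ‖f d i‖ ≤ 1 / cf i := by
    intro d i
    by_cases h : d < i
    · simp only [hf, bj_eq_zero h, zero_div, mul_zero, norm_zero]
      exact (one_div_pos.2 (cf_pos i)).le
    · push Not at h
      have h0 : 0 ≤ bj d i := by
        refine Finset.prod_nonneg fun l hl => ?_
        have hl' : l ≤ d := by
          have := Finset.mem_range.1 hl; omega
        have h1 : (2 : ℝ) ^ l ≤ 2 ^ d := pow_le_pow_right₀ (by norm_num) hl'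
        linarith
      have h1 : bj d i ≤ (2 ^ d) ^ i := by
        calc bj d i ≤ ∏ _l ∈ range i, (2 : ℝ) ^ d := by
              refine Finset.prod_le_prod (fun l hl => ?_) (fun l _ => ?_)
              · have hl' : l ≤ d := by
                  have := Finset.mem_range.1 hl; omega
                have h1 : (2 : ℝ) ^ l ≤ 2 ^ d := pow_le_pow_right₀ (by norm_num) hl'
                linarith
              · have : (0 : ℝ) < 2 ^ l := by positivity
                linarith
          _ = _ := by rw [Finset.prod_const, Finset.card_range]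
      simp only [hf, norm_mul, norm_pow, norm_neg, norm_one, one_pow, one_mul, norm_inv,
        Real.norm_ofNat, norm_div, Real.norm_of_nonneg h0, Real.norm_of_nonneg (cf_pos i).le]
      rw [← mul_div_assoc]
      refine div_le_div_of_nonneg_right ?_ (cf_pos i).le
      rw [inv_pow, inv_pow]
      have h2 : (0 : ℝ) < (2 ^ d) ^ i := by positivity
      calc ((2 ^ d) ^ i)⁻¹ * bj d i ≤ ((2 ^ d) ^ i)⁻¹ * (2 ^ d) ^ i :=
            mul_le_mul_of_nonneg_left h1 (inv_nonneg.2 h2.le)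
        _ = 1 := inv_mul_cancel₀ h2.ne'
  have hlim : ∀ i, Tendsto (fun d => f d i) atTop (𝓝 ((-1) ^ i / cf i)) := by
    intro i
    have h1 : ∀ d, f d i = (-1) ^ i * (∏ l ∈ range i, (1 - (2 : ℝ) ^ l * (2 : ℝ)⁻¹ ^ d)) / cf i := by
      intro d
      simp only [hf]
      have : ((2 : ℝ)⁻¹ ^ d) ^ i * bj d i = ∏ l ∈ range i, (1 - (2 : ℝ) ^ l * (2 : ℝ)⁻¹ ^ d) := by
        rw [bj, ← Finset.card_range i, ← Finset.prod_const, Finset.card_range,
          ← Finset.prod_mul_distrib]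
        refine Finset.prod_congr rfl fun l _ => ?_
        rw [mul_sub, ← mul_pow]
        norm_num
        ring
      rw [mul_assoc, ← mul_div_assoc, this, mul_div_assoc]
    simp only [h1]
    have h2 : Tendsto (fun d : ℕ => ∏ l ∈ range i, (1 - (2 : ℝ) ^ l * (2 : ℝ)⁻¹ ^ d)) atTop
        (𝓝 (∏ _l ∈ range i, (1 : ℝ))) := by
      refine tendsto_finsetProd _ fun l _ => ?_
      have h3 : Tendsto (fun d : ℕ => (2 : ℝ)⁻¹ ^ d) atTop (𝓝 0) :=
        tendsto_pow_atTop_nhds_zero_of_lt_one (by norm_num) (by norm_num)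
      have h4 := (h3.const_mul ((2 : ℝ) ^ l)).const_sub 1
      simpa using h4
    rw [Finset.prod_const_one] at h2
    have h3 := (h2.const_mul ((-1 : ℝ) ^ i)).div_const (cf i)
    simpa using h3
  have hsum := tendsto_tsum_of_dominated_convergence summable_inv_cf hlim
    (Eventually.of_forall fun d i => hbound d i)
  have hP : ∀ d : ℕ, ∑' i, f d i = ∏ l ∈ range d, (1 - (2 : ℝ)⁻¹ ^ (l + 1)) := by
    intro d
    have h1 : ∑' i, f d i = ∑ i ∈ range (d + 1), f d i := by
      refine tsum_eq_sum fun i hi => ?_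
      have : d < i := by
        rw [Finset.mem_range] at hi; omega
      simp only [hf, bj_eq_zero this, zero_div, mul_zero]
    rw [h1]
    have h2 := qbinom d ((2 : ℝ)⁻¹ ^ d)
    simp only [hf]
    rw [← h2, ← Finset.prod_range_reflect]
    refine Finset.prod_congr rfl fun l hl => ?_
    have hl' := Finset.mem_range.1 hl
    obtain ⟨k, hk⟩ : ∃ k, d = (l + 1) + k := ⟨d - 1 - l, by omega⟩
    have h4 : d - 1 - l = k := by omega
    rw [h4, hk, pow_add, mul_assoc, ← mul_pow]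
    norm_num
  simp only [hP] at hsum
  have hg : ∑' i : ℕ, (-1 : ℝ) ^ i / cf i = gam := tendsto_nhds_unique hsum tendsto_prod
  have hs : Summable fun i : ℕ => (-1 : ℝ) ^ i / cf i := by
    refine Summable.of_norm_bounded summable_inv_cf fun i => ?_
    rw [norm_div, norm_pow, norm_neg, norm_one, one_pow, Real.norm_of_nonneg (cf_pos i).le]
  have h9 := hs.hasSum.tendsto_sum_nat
  rw [hg] at h9
  exact h9.comp (tendsto_add_atTop_nat 1)

end Pool.Agent.C1L
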