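import Mathlib
import Pool.Agent.C1L.LA5
import Pool.Agent.C1L.LA6

set_option autoImplicit false
set_option linter.unusedSectionVars false

/-!
# Counting tuples in the kernel of `Z`
-/

namespace Pool.Agent.C1L

open Finset Module
open scoped Classical

variable {n : ℕ} {I : Type} [Fintype I] [DecidableEq I]
variable (M : Matrix I I F) (e l : I → F)

/-- The kernel of `Z`. -/
noncomputable def Ker (om : Om n I) : Submodule F (R n I → F) :=
  LinearMap.ker (Z M e l om).mulVecLin

lemma mem_Ker {om : Om n I} {v : R n I → F} :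
    v ∈ Ker M e l om ↔ (Z M e l om).mulVec v = 0 := by
  simp [Ker, LinearMap.mem_ker]

/-- No nonzero kernel vector vanishes at all large primes. -/
def E0 (om : Om n I) : Prop :=
  ∀ v : R n I → F, (∀ j : Fin n, v (Sum.inr (Sum.inl j)) = 0) →
    (Z M e l om).mulVec v = 0 → v = 0

/-- The number of tuples in the kernel, independent at the large primes. -/
noncomputable def Tn (r : ℕ) (om : Om n I) : ℕ :=
  (univ.filter fun V : Fin r → R n I → F => YI V ∧ ∀ k, (Z M e l om).mulVec (V k) = 0).card

lemma Tn_eq {r : ℕ} {om : Om n I} (h : E0 M e l om) :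
    (Tn M e l r om : ℝ) = bj (finrank F (Ker M e l om)) r := by
  have h1 : Tn M e l r om =
      Nat.card {s : Fin r → Ker M e l om // LinearIndependent F s} := by
    rw [Tn, ← Fintype.card_subtype, ← Nat.card_eq_fintype_card]
    refine Nat.card_congr ?_
    refine
      { toFun := fun V => ⟨fun k => ⟨V.1 k, (mem_Ker M e l).2 (V.2.2 k)⟩, ?_⟩
        invFun := fun s => ⟨fun k => (s.1 k).1, ?_, fun k => (mem_Ker M e l).1 (s.1 k).2⟩
        left_inv := fun V => rfl
        right_inv := fun s => rfl }
    · rw [Fintype.linearIndependent_iff]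
      intro g hg
      have h2 : g = 0 := by
        refine V.2.1 g fun j => ?_
        have h3 := congrArg (fun x : Ker M e l om => x.1 (Sum.inr (Sum.inl j))) hg
        simpa [yy, Finset.sum_apply] using h3
      intro i; rw [h2]; rfl
    · intro a ha
      have hs := Fintype.linearIndependent_iff.1 s.2 a ?_
      · funext k; exact hs k
      · apply Subtype.ext
        have h4 := h (∑ k, a k • (s.1 k).1) ?_ ?_
        · simpa using h4
        · intro j
          have := ha j
          simpa [yy, Finset.sum_apply] using this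
        · rw [← mem_Ker]
          exact Submodule.sum_mem _ fun k _ => Submodule.smul_mem _ _ (s.1 k).2
  rw [h1]
  by_cases hr : r ≤ finrank F (Ker M e l om)
  · rw [card_linearIndependent hr, Nat.cast_prod, bj,
      ← Fin.prod_univ_eq_prod_range (fun l' : ℕ => (2 : ℝ) ^ finrank F (Ker M e l om) - 2 ^ l')]
    refine Finset.prod_congr rfl fun i _ => ?_
    rw [ZMod.card]
    have h2 : 2 ^ (i : ℕ) ≤ 2 ^ finrank F (Ker M e l om) :=
      Nat.pow_le_pow_right (by norm_num) (i.2.le.trans hr)
    rw [Nat.cast_sub h2]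
    push_cast
    rfl
  · push Not at hr
    rw [bj_eq_zero hr]
    have : IsEmpty {s : Fin r → Ker M e l om // LinearIndependent F s} := by
      refine ⟨fun s => ?_⟩
      have := s.2.fintype_card_le_finrank
      rw [Fintype.card_fin] at this
      omega
    simp

/-- The number of bit patterns for which the tuple lies in the kernel. -/
noncomputable def cnt {r : ℕ} (V : Fin r → R n I → F) : ℕ :=
  (univ.filter fun om : Om n I => ∀ k, (Z M e l om).mulVec (V k) = 0).card

lemma sum_Tn (r : ℕ) :
    ∑ om : Om n I, (Tn M e l r om : ℝ) =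
      ∑ V ∈ univ.filter (fun V : Fin r → R n I → F => YI V), (cnt M e l V : ℝ) := by
  simp only [Tn, cnt, Finset.card_filter, Nat.cast_sum, Nat.cast_ite, Nat.cast_one,
    Nat.cast_zero]
  rw [Finset.sum_comm, Finset.sum_filter]
  refine Finset.sum_congr rfl fun V _ => ?_
  by_cases hV : YI V
  · simp [hV]
  · simp [hV]

/-- The number of tuples. -/
lemma card_tuples (r : ℕ) :
    (Fintype.card (Fin r → R n I → F) : ℝ) = 2 ^ (r * (n + Fintype.card I + 1)) := by
  rw [Fintype.card_fun, Fintype.card_fun, card_R, ZMod.card, Fintype.card_fin]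
  push_cast
  rw [← pow_mul, mul_comm]

/-- The number of tuples which are not onto. -/
lemma card_not_onto (r : ℕ) :
    ((univ.filter fun V : Fin r → R n I → F => ¬ Onto V).card : ℝ) ≤
      2 ^ (r * (n + Fintype.card I + 1)) * (2 ^ r * ((2 ^ r - 1) / 2 ^ r) ^ n) := by
  have h1 : (univ.filter fun V : Fin r → R n I → F => ¬ Onto V) ⊆
      (univ : Finset (Fin r → F)).biUnion fun a =>
        univ.filter fun V : Fin r → R n I → F => ∀ j : Fin n, (fun k => yy V k j) ≠ a := by
    intro V hV
    simp only [Finset.mem_filter, Finset.mem_univ, true_and, Onto, not_forall, not_exists] at hV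
    obtain ⟨a, ha⟩ := hV
    simp only [Finset.mem_biUnion, Finset.mem_univ, true_and, Finset.mem_filter]
    refine ⟨a, fun j hj => ?_⟩
    obtain ⟨k, hk⟩ := ha j
    exact hk (congrFun hj k)
  have h2 : ∀ a : Fin r → F, (univ.filter fun V : Fin r → R n I → F =>
      ∀ j : Fin n, (fun k => yy V k j) ≠ a).card ≤
      2 ^ (r * (Fintype.card I + 1)) * (2 ^ r - 1) ^ n := by
    intro a
    set t : R n I → Finset (Fin r → F) := fun b => match b with
      | Sum.inl _ => univ
      | Sum.inr (Sum.inl _) => univ.erase a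
      | Sum.inr (Sum.inr _) => univ with ht
    have h3 : (univ.filter fun V : Fin r → R n I → F =>
        ∀ j : Fin n, (fun k => yy V k j) ≠ a).card ≤ (Fintype.piFinset t).card := by
      refine Finset.card_le_card_of_injOn (fun V b k => V k b) ?_ ?_
      · intro V hV
        simp only [Finset.coe_filter, Finset.mem_univ, true_and, Set.mem_ofPred_eq] at hV
        simp only [Finset.mem_coe, Fintype.mem_piFinset]
        intro b
        rcases b with u | j | i
        · exact Finset.mem_univ _
        · exact Finset.mem_erase.2 ⟨hV j, Finset.mem_univ _⟩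
        · exact Finset.mem_univ _
      · intro V _ V' _ hVV
        funext k b
        exact congrFun (congrFun hVV b) k
    refine h3.trans ?_
    rw [Fintype.card_piFinset, Fintype.prod_sum_type, Fintype.prod_sum_type]
    simp only [ht, Finset.card_univ, Finset.card_erase_of_mem (Finset.mem_univ _),
      Fintype.card_fun, ZMod.card, Fintype.card_fin, Finset.prod_const, Fintype.card_unit]
    apply le_of_eq
    rw [mul_add, pow_add, pow_mul]
    ring
  have h4 : ((univ.filter fun V : Fin r → R n I → F => ¬ Onto V).card : ℝ) ≤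
      2 ^ r * (2 ^ (r * (Fintype.card I + 1)) * (2 ^ r - 1) ^ n) := by
    have h5 : (univ.filter fun V : Fin r → R n I → F => ¬ Onto V).card ≤
        2 ^ r * (2 ^ (r * (Fintype.card I + 1)) * (2 ^ r - 1) ^ n) := by
      refine (Finset.card_le_card h1).trans (Finset.card_biUnion_le.trans ?_)
      refine (Finset.sum_le_sum fun a _ => h2 a).trans ?_
      rw [Finset.sum_const, Finset.card_univ, Fintype.card_fun, ZMod.card, Fintype.card_fin,
        smul_eq_mul]
    have h6 : (((2 : ℕ) ^ r - 1 : ℕ) : ℝ) = 2 ^ r - 1 := by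
      rw [Nat.cast_sub Nat.one_le_two_pow]; push_cast; rfl
    calc _ ≤ ((2 ^ r * (2 ^ (r * (Fintype.card I + 1)) * (2 ^ r - 1) ^ n) : ℕ) : ℝ) := by
          exact_mod_cast h5
      _ = _ := by
          rw [Nat.cast_mul, Nat.cast_mul, Nat.cast_pow (2 ^ r - 1), h6]
          push_cast; rfl
  refine h4.trans (le_of_eq ?_)
  rw [div_pow, ← pow_mul]
  have h7 : (2 : ℝ) ^ (r * (n + Fintype.card I + 1)) =
      2 ^ (r * (Fintype.card I + 1)) * 2 ^ (r * n) := by
    rw [← pow_add]; congr 1; ring
  rw [h7]
  have h8 : (2 : ℝ) ^ (r * n) ≠ 0 := by positivity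
  field_simp

/-- The error of the first type. -/
noncomputable def rho (r n : ℕ) : ℝ := 2 ^ (r * r + 2 * r) * ((2 ^ r - 1) / 2 ^ r) ^ n

lemma pos_card : (0 : ℝ) < Fintype.card (Om n I) := by
  have : 0 < Fintype.card (Om n I) := Fintype.card_pos
  exact_mod_cast this

/-- The mean number of tuples is close to one. -/
lemma mean_Tn (r : ℕ) :
    |(∑ om : Om n I, (Tn M e l r om : ℝ)) / Fintype.card (Om n I) - 1| ≤ rho r n := by
  set N := r * (n + Fintype.card I + 1) with hN
  set Q : ℝ := ((Fintype.card (Om n I) : ℕ) : ℝ) with hQ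
  have hQ0 : 0 < Q := pos_card
  have hP0 : (0 : ℝ) < 2 ^ N := by positivity
  -- exact value for onto tuples
  have hon : ∀ V : Fin r → R n I → F, Onto V → (cnt M e l V : ℝ) / Q = 1 / 2 ^ N := by
    intro V hV
    have h1 := count_onto M e l V hV
    have h2 : (2 : ℝ) ^ N * (cnt M e l V : ℝ) = Q := by
      have := congrArg (fun x : ℤ => (x : ℝ)) h1
      push_cast at this
      rw [cnt]
      exact this
    rw [div_eq_div_iff hQ0.ne' hP0.ne', one_mul, mul_comm]; exact h2
  have hyi : ∀ V : Fin r → R n I → F, YI V → (cnt M e l V : ℝ) / Q ≤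
      2 ^ (r * r + r) / 2 ^ N := by
    intro V hV
    have h1 := count_YI M e l V hV
    have h2 : (2 : ℝ) ^ N * (cnt M e l V : ℝ) ≤ 2 ^ (r * r + r) * Q := by
      have : (((2 : ℤ) ^ N * (cnt M e l V : ℤ) : ℤ) : ℝ) ≤
          ((2 ^ (r * r + r) * (Fintype.card (Om n I) : ℤ) : ℤ) : ℝ) := Int.cast_le.2 h1
      push_cast at this
      exact this
    rw [div_le_div_iff₀ hQ0 hP0, mul_comm]; exact h2
  have hsplit : (∑ om : Om n I, (Tn M e l r om : ℝ)) / Q - 1 =
      ∑ V ∈ univ.filter (fun V : Fin r → R n I → F => ¬ Onto V),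
        ((if YI V then (cnt M e l V : ℝ) / Q else 0) - 1 / 2 ^ N) := by
    rw [sum_Tn, Finset.sum_div, Finset.sum_filter]
    have h1 : (1 : ℝ) = ∑ _V : Fin r → R n I → F, 1 / 2 ^ N := by
      rw [Finset.sum_const, Finset.card_univ, nsmul_eq_mul, card_tuples, ← hN]
      field_simp
    conv_lhs => rw [h1]
    rw [← Finset.sum_sub_distrib, Finset.sum_filter]
    refine Finset.sum_congr rfl fun V _ => ?_
    by_cases hV : Onto V
    · simp only [hV, not_true_eq_false, if_false, hV.YI, if_true, hon V hV, sub_self]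
    · simp [hV]
  rw [hsplit]
  refine (Finset.abs_sum_le_sum_abs _ _).trans ?_
  have hterm : ∀ V ∈ univ.filter (fun V : Fin r → R n I → F => ¬ Onto V),
      |(if YI V then (cnt M e l V : ℝ) / Q else 0) - 1 / 2 ^ N| ≤ 2 ^ (r * r + r) / 2 ^ N := by
    intro V _
    have h3 : (1 : ℝ) / 2 ^ N ≤ 2 ^ (r * r + r) / 2 ^ N :=
      div_le_div_of_nonneg_right (one_le_pow₀ (by norm_num)) hP0.le
    have h4 : 0 ≤ (1 : ℝ) / 2 ^ N := by positivity
    split_ifs with hV
    · have h5 := hyi V hV
      have h6 : 0 ≤ (cnt M e l V : ℝ) / Q := by positivity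
      rw [abs_le]; constructor <;> linarith
    · rw [zero_sub, abs_neg, abs_of_nonneg h4]; exact h3
  refine (Finset.sum_le_sum hterm).trans ?_
  rw [Finset.sum_const, nsmul_eq_mul]
  have h7 := card_not_onto (n := n) (I := I) r
  calc _ ≤ (2 ^ N * (2 ^ r * ((2 ^ r - 1) / 2 ^ r) ^ n)) * (2 ^ (r * r + r) / 2 ^ N) :=
        mul_le_mul_of_nonneg_right h7 (by positivity)
    _ = rho r n := by
        rw [rho]
        have : (2 : ℝ) ^ (r * r + 2 * r) = 2 ^ (r * r + r) * 2 ^ r := by
          rw [← pow_add]; congr 1; ring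
        rw [this]
        field_simp

end Pool.Agent.C1L
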