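import Mathlib
import Pool.Agent.C1L.LA7

set_option autoImplicit false
set_option linter.unusedSectionVars false

/-!
# The probability that `Z` is invertible
-/

namespace Pool.Agent.C1L

open Finset Module Filter
open scoped Classical

variable {n : ℕ} {I : Type} [Fintype I] [DecidableEq I]
variable (M : Matrix I I F) (e l : I → F)

/-- `Z` has trivial kernel. -/
def Gd (om : Om n I) : Prop := ∀ v : R n I → F, (Z M e l om).mulVec v = 0 → v = 0

/-- The size of the kernel of `M`. -/
noncomputable def kM : ℕ := (univ.filter fun x : I → F => M.mulVec x = 0).card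

lemma one_le_kM : 1 ≤ kM M := by
  rw [kM, Nat.one_le_iff_ne_zero, ← Nat.pos_iff_ne_zero, Finset.card_pos]
  exact ⟨0, by simp⟩

/-- The nonzero vectors without components at the large primes that satisfy the deterministic
equations. -/
noncomputable def W : Finset (R n I → F) :=
  univ.filter fun v => v ≠ 0 ∧ (∀ j : Fin n, v (Sum.inr (Sum.inl j)) = 0) ∧
    ∀ i, l i * v (Sum.inl ()) + (M.mulVec fun i' => v (Sum.inr (Sum.inr i'))) i = 0

lemma card_W : (W (n := n) M l).card ≤ kM M * 2 := by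
  have h := Finset.card_le_mul_card_image (f := fun v : R n I → F => v (Sum.inl ()))
    (W (n := n) M l) (kM M) ?_
  · refine h.trans (Nat.mul_le_mul_left _ ?_)
    refine (Finset.card_le_univ _).trans ?_
    rw [ZMod.card]
  · intro b _
    rcases (Finset.filter (fun v : R n I → F => v (Sum.inl ()) = b) (W (n := n) M l)).eq_empty_or_nonempty
      with h0 | ⟨v1, hv1⟩
    · rw [h0]; simp
    · refine Finset.card_le_card_of_injOn
        (fun v i => v (Sum.inr (Sum.inr i)) - v1 (Sum.inr (Sum.inr i))) ?_ ?_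
      · intro v hv
        simp only [W, Finset.coe_filter, Finset.mem_filter, Finset.mem_univ, true_and,
          Set.mem_ofPred_eq] at hv hv1 ⊢
        have h1 : (fun i => v (Sum.inr (Sum.inr i)) - v1 (Sum.inr (Sum.inr i))) =
            (fun i => v (Sum.inr (Sum.inr i))) - (fun i => v1 (Sum.inr (Sum.inr i))) := rfl
        rw [h1, Matrix.mulVec_sub]
        funext i
        have h2 := hv.1.2.2 i
        have h3 := hv1.1.2.2 i
        rw [hv.2] at h2
        rw [hv1.2] at h3
        rw [Pi.sub_apply, Pi.zero_apply, sub_eq_zero]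
        exact add_left_cancel (h2.trans h3.symm)
      · intro v hv v' hv' hvv
        simp only [W, Finset.coe_filter, Finset.mem_filter, Finset.mem_univ, true_and,
          Set.mem_ofPred_eq] at hv hv' hvv
        funext a
        rcases a with u | j | i
        · exact hv.2.trans hv'.2.symm
        · rw [hv.1.2.1 j, hv'.1.2.1 j]
        · exact sub_left_injective (congrFun hvv i)

lemma exists_W {om : Om n I} (h : ¬ E0 M e l om) :
    ∃ v ∈ W (n := n) M l, (Z M e l om).mulVec v = 0 := by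
  unfold E0 at h
  push Not at h
  obtain ⟨v, hy, hz, hv⟩ := h
  refine ⟨v, ?_, hz⟩
  simp only [W, Finset.mem_filter, Finset.mem_univ, true_and]
  refine ⟨hv, hy, fun i => ?_⟩
  have h1 := congrFun hz (Sum.inr (Sum.inr i))
  rw [Matrix.mulVec, dotProduct, Fintype.sum_sum_type, Fintype.sum_sum_type] at h1
  simp only [Z, hy, mul_zero, Finset.sum_const_zero, zero_add, Pi.zero_apply] at h1
  simpa [Matrix.mulVec, dotProduct] using h1

/-- The total number of tuples for the bit patterns outside `E0`. -/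
lemma mixed (r : ℕ) :
    ∑ om ∈ univ.filter (fun om : Om n I => ¬ E0 M e l om), (Tn M e l r om : ℝ) ≤
      (kM M : ℝ) * (2 ^ (r * r + 2 * r + 1) / 2 ^ n) * Fintype.card (Om n I) := by
  set N := r * (n + Fintype.card I + 1) with hN
  set Q : ℝ := ((Fintype.card (Om n I) : ℕ) : ℝ) with hQ
  have hQ0 : 0 < Q := pos_card
  have h1 : ∑ om ∈ univ.filter (fun om : Om n I => ¬ E0 M e l om), (Tn M e l r om : ℝ) ≤
      ∑ v ∈ W (n := n) M l, ∑ om : Om n I,
        if (Z M e l om).mulVec v = 0 then (Tn M e l r om : ℝ) else 0 := by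
    rw [Finset.sum_comm, Finset.sum_filter]
    refine Finset.sum_le_sum fun om _ => ?_
    have hnn : ∀ v ∈ W (n := n) M l,
        (0 : ℝ) ≤ if (Z M e l om).mulVec v = 0 then (Tn M e l r om : ℝ) else 0 := by
      intro v _; split_ifs <;> positivity
    by_cases h : E0 M e l om
    · rw [if_neg (not_not.2 h)]
      exact Finset.sum_nonneg hnn
    · rw [if_pos h]
      obtain ⟨v, hvW, hv⟩ := exists_W M e l h
      refine le_trans ?_ (Finset.single_le_sum hnn hvW)
      rw [if_pos hv]
  have h2 : ∀ v ∈ W (n := n) M l, (∑ om : Om n I,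
        if (Z M e l om).mulVec v = 0 then (Tn M e l r om : ℝ) else 0) ≤
      2 ^ (r * r + 2 * r) / 2 ^ n * Q := by
    intro v hv
    simp only [W, Finset.mem_filter, Finset.mem_univ, true_and] at hv
    have h3 : (∑ om : Om n I,
        if (Z M e l om).mulVec v = 0 then (Tn M e l r om : ℝ) else 0) =
        ∑ V ∈ univ.filter (fun V : Fin r → R n I → F => YI V),
          ((univ.filter fun om : Om n I => (∀ k, (Z M e l om).mulVec (V k) = 0) ∧
            (Z M e l om).mulVec v = 0).card : ℝ) := by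
      simp only [Tn, Finset.card_filter, Nat.cast_sum, Nat.cast_ite, Nat.cast_one,
        Nat.cast_zero]
      rw [Finset.sum_filter, ← Finset.sum_filter]
      rw [Finset.sum_comm]
      refine Finset.sum_congr rfl fun V _ => ?_
      by_cases hV : YI V
      · simp only [hV, true_and, if_true]
        rw [Finset.sum_filter]
        refine Finset.sum_congr rfl fun om _ => ?_
        by_cases h5 : (Z M e l om).mulVec v = 0 <;> simp [h5]
      · simp [hV]
    rw [h3]
    have h4 : ∀ V ∈ univ.filter (fun V : Fin r → R n I → F => YI V),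
        ((univ.filter fun om : Om n I => (∀ k, (Z M e l om).mulVec (V k) = 0) ∧
            (Z M e l om).mulVec v = 0).card : ℝ) ≤ 2 ^ (r * r + 2 * r) * Q / 2 ^ (N + n) := by
      intro V hV
      have h5 := count_mixed M e l V (Finset.mem_filter.1 hV).2 v hv.2.1 hv.1
      have h6 : (((2 : ℤ) ^ (N + n) * ((univ.filter fun om : Om n I =>
          (∀ k, (Z M e l om).mulVec (V k) = 0) ∧ (Z M e l om).mulVec v = 0).card : ℤ) : ℤ) : ℝ) ≤
          ((2 ^ (r * r + 2 * r) * (Fintype.card (Om n I) : ℤ) : ℤ) : ℝ) := Int.cast_le.2 h5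
      push_cast at h6
      rw [le_div_iff₀ (by positivity), mul_comm]
      exact h6
    refine (Finset.sum_le_sum h4).trans ?_
    rw [Finset.sum_const, nsmul_eq_mul]
    have h7 : ((univ.filter (fun V : Fin r → R n I → F => YI V)).card : ℝ) ≤ 2 ^ N := by
      have h8 : ((univ.filter (fun V : Fin r → R n I → F => YI V)).card : ℝ) ≤
          (Fintype.card (Fin r → R n I → F) : ℝ) := by
        exact_mod_cast Finset.card_le_univ _
      rw [card_tuples] at h8
      exact h8
    calc _ ≤ 2 ^ N * (2 ^ (r * r + 2 * r) * Q / 2 ^ (N + n)) :=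
          mul_le_mul_of_nonneg_right h7 (by positivity)
      _ = 2 ^ (r * r + 2 * r) / 2 ^ n * Q := by
          rw [pow_add (2 : ℝ) N n]
          have h9 : (2 : ℝ) ^ N ≠ 0 := by positivity
          field_simp
  refine h1.trans ((Finset.sum_le_sum h2).trans ?_)
  rw [Finset.sum_const, nsmul_eq_mul]
  have h3 : ((W (n := n) M l).card : ℝ) ≤ (kM M : ℝ) * 2 := by
    exact_mod_cast card_W (n := n) M l
  calc _ ≤ ((kM M : ℝ) * 2) * (2 ^ (r * r + 2 * r) / 2 ^ n * Q) :=
        mul_le_mul_of_nonneg_right h3 (by positivity)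
    _ = _ := by rw [pow_succ (2 : ℝ) (r * r + 2 * r)]; ring

/-- The partial sums. -/
noncomputable def ser (J : ℕ) : ℝ := ∑ i ∈ range (J + 1), (-1 : ℝ) ^ i / cf i

/-- The error term. -/
noncomputable def Er (J n : ℕ) : ℝ :=
  ∑ i ∈ range (J + 1), (rho i n + 2 ^ (i * i + 2 * i + 1) / 2 ^ n)

/-- The probability that `Z` has trivial kernel. -/
noncomputable def Pr (n : ℕ) : ℝ :=
  ((univ.filter fun om : Om n I => Gd M e l om).card : ℝ) / Fintype.card (Om n I)

/-- Pointwise Bonferroni inequality. -/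
lemma bonf_pt (J : ℕ) (om : Om n I) :
    -(if E0 M e l om then 0 else ∑ i ∈ range (J + 1), (Tn M e l i om : ℝ)) ≤
      (-1) ^ J * ((∑ i ∈ range (J + 1), (-1) ^ i * (Tn M e l i om : ℝ) / cf i) -
        if Gd M e l om then 1 else 0) := by
  by_cases h : E0 M e l om
  · rw [if_pos h, neg_zero]
    simp only [Tn_eq M e l h]
    by_cases hg : Gd M e l om
    · rw [if_pos hg]
      have hd : finrank F (Ker M e l om) = 0 := by
        rw [Submodule.finrank_eq_zero]
        rw [Submodule.eq_bot_iff]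
        intro v hv
        exact hg v ((mem_Ker M e l).1 hv)
      rw [hd, bonf_zero, sub_self, mul_zero]
    · rw [if_neg hg, sub_zero]
      refine bonf_pos ?_ J
      rw [Nat.pos_iff_ne_zero]
      intro h0
      apply hg
      rw [Submodule.finrank_eq_zero, Submodule.eq_bot_iff] at h0
      intro v hv
      exact h0 v ((mem_Ker M e l).2 hv)
  · rw [if_neg h]
    have hg : ¬ Gd M e l om := fun hg => h fun v _ hv => hg v hv
    rw [if_neg hg, sub_zero]
    have h1 : |(-1) ^ J * ∑ i ∈ range (J + 1), (-1) ^ i * (Tn M e l i om : ℝ) / cf i| ≤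
        ∑ i ∈ range (J + 1), (Tn M e l i om : ℝ) := by
      rw [abs_mul, abs_pow, abs_neg, abs_one, one_pow, one_mul]
      refine (Finset.abs_sum_le_sum_abs _ _).trans (Finset.sum_le_sum fun i _ => ?_)
      rw [abs_div, abs_mul, abs_pow, abs_neg, abs_one, one_pow, one_mul, Nat.abs_cast,
        abs_of_pos (cf_pos i)]
      exact div_le_self (Nat.cast_nonneg _) (one_le_cf i)
    exact (abs_le.1 h1).1

/-- The mean Bonferroni inequality. -/
lemma bonf_mean (J : ℕ) :
    -((kM M : ℝ) * Er J n) ≤ (-1) ^ J * (ser J - Pr (I := I) M e l n) := by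
  set Q : ℝ := ((Fintype.card (Om n I) : ℕ) : ℝ) with hQ
  have hQ0 : 0 < Q := pos_card
  have hk : (1 : ℝ) ≤ kM M := by exact_mod_cast one_le_kM M
  have h1 := Finset.sum_le_sum fun (om : Om n I) (_ : om ∈ univ) => bonf_pt M e l J om
  rw [Finset.sum_neg_distrib, ← Finset.mul_sum, Finset.sum_sub_distrib] at h1
  have h2 : (∑ om : Om n I, if Gd M e l om then (1 : ℝ) else 0) = Pr (I := I) M e l n * Q := by
    rw [Pr, ← hQ, div_mul_cancel₀ _ hQ0.ne', Finset.card_filter]
    push_cast
    rfl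
  have h3 : (∑ om : Om n I, if E0 M e l om then (0 : ℝ) else
      ∑ i ∈ range (J + 1), (Tn M e l i om : ℝ)) ≤
      ∑ i ∈ range (J + 1), (kM M : ℝ) * (2 ^ (i * i + 2 * i + 1) / 2 ^ n) * Q := by
    have h4 : (∑ om : Om n I, if E0 M e l om then (0 : ℝ) else
        ∑ i ∈ range (J + 1), (Tn M e l i om : ℝ)) = ∑ i ∈ range (J + 1),
        ∑ om ∈ univ.filter (fun om : Om n I => ¬ E0 M e l om), (Tn M e l i om : ℝ) := by
      rw [Finset.sum_comm, Finset.sum_filter]
      refine Finset.sum_congr rfl fun om _ => ?_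
      by_cases h : E0 M e l om <;> simp [h]
    rw [h4]
    exact Finset.sum_le_sum fun i _ => mixed M e l i
  have h5 : (∑ om : Om n I, ∑ i ∈ range (J + 1), (-1) ^ i * (Tn M e l i om : ℝ) / cf i) =
      ∑ i ∈ range (J + 1), (-1) ^ i / cf i * ∑ om : Om n I, (Tn M e l i om : ℝ) := by
    rw [Finset.sum_comm]
    refine Finset.sum_congr rfl fun i _ => ?_
    rw [Finset.mul_sum]
    refine Finset.sum_congr rfl fun om _ => ?_
    ring
  have h6 : |(∑ i ∈ range (J + 1), (-1) ^ i / cf i * ∑ om : Om n I, (Tn M e l i om : ℝ)) -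
      ser J * Q| ≤ ∑ i ∈ range (J + 1), rho i n * Q := by
    rw [ser, Finset.sum_mul, ← Finset.sum_sub_distrib]
    refine (Finset.abs_sum_le_sum_abs _ _).trans (Finset.sum_le_sum fun i _ => ?_)
    rw [← mul_sub, abs_mul, abs_div, abs_pow, abs_neg, abs_one, one_pow, abs_of_pos (cf_pos i)]
    have h7 := mean_Tn (n := n) M e l i
    rw [← hQ] at h7
    have h8 : (∑ om : Om n I, (Tn M e l i om : ℝ)) - Q =
        ((∑ om : Om n I, (Tn M e l i om : ℝ)) / Q - 1) * Q := by
      field_simp
    rw [h8, abs_mul, abs_of_pos hQ0]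
    have h9 : 1 / cf i ≤ 1 := by
      rw [div_le_one (cf_pos i)]; exact one_le_cf i
    calc _ ≤ 1 * (rho i n * Q) := by
          refine mul_le_mul h9 (mul_le_mul_of_nonneg_right h7 hQ0.le) ?_ zero_le_one
          positivity
      _ = _ := one_mul _
  rw [h2, h5] at h1
  have h10 : |(-1 : ℝ) ^ J * ((∑ i ∈ range (J + 1), (-1) ^ i / cf i *
      ∑ om : Om n I, (Tn M e l i om : ℝ)) - ser J * Q)| ≤ ∑ i ∈ range (J + 1), rho i n * Q := by
    rw [abs_mul, abs_pow, abs_neg, abs_one, one_pow, one_mul]; exact h6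
  have h11 := (abs_le.1 h10).2
  have h12 : -(kM M : ℝ) * Er J n * Q ≤ (-1) ^ J * (ser J - Pr (I := I) M e l n) * Q := by
    have h13 : (kM M : ℝ) * Er J n * Q =
        (kM M : ℝ) * (∑ i ∈ range (J + 1), rho i n * Q) +
        ∑ i ∈ range (J + 1), (kM M : ℝ) * (2 ^ (i * i + 2 * i + 1) / 2 ^ n) * Q := by
      rw [Er, Finset.mul_sum, Finset.mul_sum, Finset.sum_mul, ← Finset.sum_add_distrib]
      refine Finset.sum_congr rfl fun i _ => ?_
      ring
    have h14 : 0 ≤ ∑ i ∈ range (J + 1), rho i n * Q := by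
      refine Finset.sum_nonneg fun i _ => mul_nonneg ?_ hQ0.le
      have := mean_Tn (n := n) M e l i
      exact (abs_nonneg _).trans this
    have h15 : (∑ i ∈ range (J + 1), rho i n * Q) ≤
        (kM M : ℝ) * (∑ i ∈ range (J + 1), rho i n * Q) := by
      nlinarith
    nlinarith
  have h16 : -((kM M : ℝ) * Er J n) * Q ≤ (-1) ^ J * (ser J - Pr (I := I) M e l n) * Q := by
    rw [← neg_mul] at *
    exact h12
  exact le_of_mul_le_mul_right h16 hQ0

lemma tendsto_Er (J : ℕ) : Tendsto (fun n : ℕ => Er J n) atTop (nhds 0) := by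
  have h0 : (0 : ℝ) = ∑ i ∈ range (J + 1), (2 ^ (i * i + 2 * i) * 0 + 0) := by simp
  rw [h0]
  unfold Er
  refine tendsto_finsetSum _ fun i _ => ?_
  refine Tendsto.add ?_ ?_
  · unfold rho
    refine Tendsto.const_mul _ ?_
    refine tendsto_pow_atTop_nhds_zero_of_lt_one ?_ ?_
    · have : (1 : ℝ) ≤ 2 ^ i := one_le_pow₀ (by norm_num)
      exact div_nonneg (by linarith) (by positivity)
    · rw [div_lt_one (by positivity)]; linarith
  · have h1 : (fun n : ℕ => (2 : ℝ) ^ (i * i + 2 * i + 1) / 2 ^ n) =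
        fun n : ℕ => (2 : ℝ) ^ (i * i + 2 * i + 1) * (1 / 2) ^ n := by
      funext n
      rw [one_div, inv_pow, div_eq_mul_inv]
    rw [h1]
    have h2 := (tendsto_pow_atTop_nhds_zero_of_lt_one (r := (1 / 2 : ℝ)) (by norm_num)
      (by norm_num)).const_mul ((2 : ℝ) ^ (i * i + 2 * i + 1))
    rwa [mul_zero] at h2

/-- The main theorem of the linear algebra part: `Z` has trivial kernel with probability close to
`gam`, for every matrix `M`. -/
theorem main (δ : ℝ) (hδ : 0 < δ) : ∃ n0 : ℕ, ∀ n : ℕ, n0 ≤ n → ∀ (I : Type) [Fintype I]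
    [DecidableEq I] (M : Matrix I I F) (e l : I → F),
    |Pr (I := I) M e l n - gam| ≤ δ * kM M := by
  obtain ⟨J0, hJ0⟩ := Metric.tendsto_atTop.1 tendsto_series (δ / 2) (by linarith)
  have hEr : ∀ J : ℕ, ∃ n0 : ℕ, ∀ n : ℕ, n0 ≤ n → Er J n ≤ δ / 2 := by
    intro J
    obtain ⟨n0, hn0⟩ := Metric.tendsto_atTop.1 (tendsto_Er J) (δ / 2) (by linarith)
    refine ⟨n0, fun n hn => ?_⟩
    have := hn0 n hn
    rw [Real.dist_eq, sub_zero] at this
    exact (le_abs_self _).trans this.le
  obtain ⟨n1, hn1⟩ := hEr (2 * J0)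
  obtain ⟨n2, hn2⟩ := hEr (2 * J0 + 1)
  refine ⟨max n1 n2, fun n hn I _ _ M e l => ?_⟩
  have hk : (1 : ℝ) ≤ kM M := by exact_mod_cast one_le_kM M
  have a1 := hn1 n ((le_max_left _ _).trans hn)
  have a2 := hn2 n ((le_max_right _ _).trans hn)
  have b1 := bonf_mean (n := n) M e l (2 * J0)
  have b2 := bonf_mean (n := n) M e l (2 * J0 + 1)
  have c1 := hJ0 (2 * J0) (by omega)
  have c2 := hJ0 (2 * J0 + 1) (by omega)
  rw [Real.dist_eq] at c1 c2
  have c1' := abs_lt.1 c1
  have c2' := abs_lt.1 c2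
  have p1 : (-1 : ℝ) ^ (2 * J0) = 1 := by rw [pow_mul]; norm_num
  have p2 : (-1 : ℝ) ^ (2 * J0 + 1) = -1 := by rw [pow_succ, p1]; norm_num
  rw [p1, one_mul] at b1
  rw [p2] at b2
  have d1 : (kM M : ℝ) * Er (2 * J0) n ≤ kM M * (δ / 2) :=
    mul_le_mul_of_nonneg_left a1 (by linarith)
  have d2 : (kM M : ℝ) * Er (2 * J0 + 1) n ≤ kM M * (δ / 2) :=
    mul_le_mul_of_nonneg_left a2 (by linarith)
  have d3 : δ / 2 ≤ (kM M : ℝ) * (δ / 2) := by nlinarith
  unfold ser at b1 b2
  rw [abs_le]
  constructor <;> nlinarith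

end Pool.Agent.C1L
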